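import Pool.Agent.R452.SZ.Alg

/-!
# Dimensions of primes in finitely generated algebras, cutting by elements
-/

set_option autoImplicit false

namespace Pool.Agent.HS38.PL

open MvPolynomial Cardinal Pool.Agent.R452.SZ

section td

variable (K : Type) {A : Type} [Field K] [CommRing A] [Algebra K A]

/-- the dimension (transcendence degree) of `A / P` -/
noncomputable def td (P : Ideal A) : ℕ := Cardinal.toNat (Algebra.trdeg K (A ⧸ P))

theorem trdeg_lt (B : Type) [CommRing B] [Algebra K B] [h : Algebra.FiniteType K B] :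
    Algebra.trdeg K B < ℵ₀ := by
  obtain ⟨n, f, hf⟩ := Algebra.FiniteType.iff_quotient_mvPolynomial''.1 h
  refine (trdeg_le_of_surjective f hf).trans_lt ?_
  rw [MvPolynomial.trdeg_of_isDomain]
  simp

variable [Algebra.FiniteType K A]

theorem td_cast (P : Ideal A) : (td K P : Cardinal) = Algebra.trdeg K (A ⧸ P) :=
  Cardinal.cast_toNat_of_lt_aleph0 (trdeg_lt K _)

theorem td_lt {P Q : Ideal A} [P.IsPrime] [Q.IsPrime] (h : P < Q) : td K Q + 1 ≤ td K P := by
  have h1 := trdeg_quot_add_one_le (K := K) P Q h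
  rw [← td_cast, ← td_cast] at h1
  exact_mod_cast h1

theorem td_le {P Q : Ideal A} (h : P ≤ Q) : td K Q ≤ td K P := by
  have h1 := trdeg_le_of_surjective (Ideal.Quotient.factorₐ K h)
    (Ideal.Quotient.factor_surjective h)
  rw [← td_cast, ← td_cast] at h1
  exact_mod_cast h1

theorem td_min {P Q : Ideal A} [P.IsPrime] {f : A}
    (hQ : Q ∈ (P ⊔ Ideal.span {f}).minimalPrimes) : td K P ≤ td K Q + 1 := by
  have h1 := trdeg_le_of_minimalPrimes (K := K) P Q f hQ
  rw [← td_cast, ← td_cast] at h1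
  exact_mod_cast h1

theorem td_comap_le {A' : Type} [CommRing A'] [Algebra K A'] [Algebra.FiniteType K A']
    (f : A →ₐ[K] A') (Q : Ideal A') : td K (Q.comap f) ≤ td K Q := by
  have hinj : Function.Injective (Ideal.quotientMapₐ (I := Q.comap f) Q f le_rfl) := by
    rw [injective_iff_map_eq_zero]
    intro x
    obtain ⟨x, rfl⟩ := Ideal.Quotient.mk_surjective x
    intro hx
    rw [Ideal.Quotient.eq_zero_iff_mem]
    have h2 : Ideal.Quotient.mk Q (f x) = 0 := hx
    rwa [Ideal.Quotient.eq_zero_iff_mem] at h2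
  have h1 := trdeg_le_of_injective _ hinj
  rw [← td_cast, ← td_cast] at h1
  exact_mod_cast h1

theorem le_td_comap {A' : Type} [CommRing A'] [Algebra K A'] [Algebra.FiniteType K A']
    (f : A →ₐ[K] A') (hf : Function.Surjective f) (Q : Ideal A') :
    td K Q ≤ td K (Q.comap f) := by
  have hsur : Function.Surjective (Ideal.quotientMapₐ (I := Q.comap f) Q f le_rfl) := by
    intro x
    obtain ⟨x, rfl⟩ := Ideal.Quotient.mk_surjective x
    obtain ⟨z, rfl⟩ := hf x
    exact ⟨Ideal.Quotient.mk _ z, rfl⟩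
  have h1 := trdeg_le_of_surjective _ hsur
  rw [← td_cast, ← td_cast] at h1
  exact_mod_cast h1

/-- the height of a prime in a domain is at most the codimension -/
theorem height_le [IsDomain A] (m : ℕ) : ∀ p : Ideal A, ∀ _ : p.IsPrime,
    td K (⊥ : Ideal A) ≤ td K p + m → p.height ≤ m := by
  induction m with
  | zero =>
    intro p hp h
    rw [Ideal.height_le_iff]
    intro q hq hqp
    exfalso
    have h1 := td_lt K hqp
    have h2 := td_le K (bot_le : (⊥ : Ideal A) ≤ q)
    omega
  | succ m ih =>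
    intro p hp h
    rw [Ideal.height_le_iff]
    intro q hq hqp
    have h1 := td_lt K hqp
    have h2 := ih q hq (by omega)
    exact lt_of_le_of_lt h2 (by exact_mod_cast Nat.lt_succ_self m)

/-- `≤ td P` elements which cut out the prime `N` from `P` -/
theorem exists_param {P N : Ideal A} [P.IsPrime] [N.IsPrime] (hPN : P ≤ N) :
    ∃ s : Finset A, s.card ≤ td K P ∧ (∀ f ∈ s, f ∈ N) ∧
      ∀ Q : Ideal A, Q.IsPrime → P ≤ Q → (∀ f ∈ s, f ∈ Q) → Q ≤ N → Q = N := by
  classical
  have hNA : IsNoetherianRing A := Algebra.FiniteType.isNoetherianRing K A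
  have hN' : (N.map (Ideal.Quotient.mk P)).IsPrime :=
    Ideal.map_isPrime_of_surjective Ideal.Quotient.mk_surjective (by rw [Ideal.mk_ker]; exact hPN)
  obtain ⟨s, hs, hc⟩ := Ideal.exists_finset_card_eq_height_of_isNoetherianRing
    (N.map (Ideal.Quotient.mk P))
  have h0 : td K (⊥ : Ideal (A ⧸ P)) ≤ td K P := by
    have h1 := le_td_comap K (Ideal.Quotient.mkₐ K P) (Ideal.Quotient.mkₐ_surjective K P) ⊥
    have h2 : (⊥ : Ideal (A ⧸ P)).comap (Ideal.Quotient.mkₐ K P) = P := by
      ext x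
      rw [Ideal.mem_comap, Ideal.mem_bot, Ideal.Quotient.mkₐ_eq_mk, Ideal.Quotient.eq_zero_iff_mem]
    rwa [h2] at h1
  have h3 : (N.map (Ideal.Quotient.mk P)).height ≤ (td K P : ℕ∞) :=
    height_le K (td K P) _ hN' (h0.trans (Nat.le_add_left _ _))
  rw [← hc] at h3
  have h4 : s.card ≤ td K P := by exact_mod_cast h3
  refine ⟨s.image (Function.surjInv (Ideal.Quotient.mk_surjective (I := P))),
    Finset.card_image_le.trans h4, ?_, ?_⟩
  · intro f hf
    obtain ⟨g, hg, rfl⟩ := Finset.mem_image.1 hf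
    have h5 : g ∈ N.map (Ideal.Quotient.mk P) := hs.1.2 (Ideal.subset_span hg)
    have h6 : Ideal.Quotient.mk P (Function.surjInv (Ideal.Quotient.mk_surjective (I := P)) g) ∈
        N.map (Ideal.Quotient.mk P) := by
      rw [Function.surjInv_eq Ideal.Quotient.mk_surjective g]
      exact h5
    have h7 := Ideal.mem_comap.2 h6
    rw [Ideal.comap_map_of_surjective _ Ideal.Quotient.mk_surjective, ← RingHom.ker_eq_comap_bot,
      Ideal.mk_ker, sup_eq_left.2 hPN] at h7
    exact h7
  · intro Q hQ hPQ hsQ hQN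
    refine le_antisymm hQN ?_
    have hQ' : (Q.map (Ideal.Quotient.mk P)).IsPrime :=
      Ideal.map_isPrime_of_surjective Ideal.Quotient.mk_surjective
        (by rw [Ideal.mk_ker]; exact hPQ)
    have h5 : Ideal.span (s : Set (A ⧸ P)) ≤ Q.map (Ideal.Quotient.mk P) := by
      rw [Ideal.span_le]
      intro g hg
      have h6 := hsQ _ (Finset.mem_image_of_mem
        (Function.surjInv (Ideal.Quotient.mk_surjective (I := P))) hg)
      have h7 := Ideal.mem_map_of_mem (Ideal.Quotient.mk P) h6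
      rwa [Function.surjInv_eq Ideal.Quotient.mk_surjective g] at h7
    have h8 := hs.2 ⟨hQ', h5⟩ (Ideal.map_mono hQN)
    have h9 := Ideal.comap_mono (f := Ideal.Quotient.mk P) h8
    rwa [Ideal.comap_map_of_surjective _ Ideal.Quotient.mk_surjective,
      Ideal.comap_map_of_surjective _ Ideal.Quotient.mk_surjective, ← RingHom.ker_eq_comap_bot,
      Ideal.mk_ker, sup_eq_left.2 hPN, sup_eq_left.2 hPQ] at h9

end td

section cut

variable {K : Type} [Field K] {σ : Type} [Fintype σ]

attribute [local instance] MvPolynomial.weightedGradedAlgebra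

/-- `I` is homogeneous for the weight `w` -/
def WHom (w : σ → ℕ) (I : Ideal (MvPolynomial σ K)) : Prop :=
  I.IsHomogeneous (weightedHomogeneousSubmodule K w)

theorem WHom.comp {w : σ → ℕ} {I : Ideal (MvPolynomial σ K)} (h : WHom w I)
    {f : MvPolynomial σ K} (hf : f ∈ I) (m : ℕ) : weightedHomogeneousComponent w m f ∈ I :=
  weightedHomogeneousComponent_mem_of_mem K w h hf m

theorem WHom.min {w : σ → ℕ} {I Q : Ideal (MvPolynomial σ K)} (hI : WHom w I)
    (hQ : Q ∈ I.minimalPrimes) : WHom w Q := by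
  have hp : (Q.homogeneousCore (weightedHomogeneousSubmodule K w)).toIdeal.IsPrime :=
    Ideal.IsPrime.homogeneousCore hQ.1.1
  have h1 : I ≤ (Q.homogeneousCore (weightedHomogeneousSubmodule K w)).toIdeal := by
    rw [← Ideal.IsHomogeneous.toIdeal_homogeneousCore_eq_self hI]
    exact Ideal.homogeneousCore_mono _ hQ.1.2
  have h2 := hQ.2 ⟨hp, h1⟩ (Ideal.toIdeal_homogeneousCore_le _ Q)
  exact (Ideal.IsHomogeneous.iff_eq _ _).2 (le_antisymm (Ideal.toIdeal_homogeneousCore_le _ Q) h2)

theorem WHom.span {w : σ → ℕ} {s : Set (MvPolynomial σ K)}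
    (h : ∀ f ∈ s, ∃ m, IsWeightedHomogeneous w f m) : WHom w (Ideal.span s) :=
  Ideal.homogeneous_span _ _ fun f hf => h f hf

theorem WHom.sup {w : σ → ℕ} {I J : Ideal (MvPolynomial σ K)} (hI : WHom w I) (hJ : WHom w J) :
    WHom w (I ⊔ J) := Ideal.IsHomogeneous.sup hI hJ

/-- cut a prime by an element, inside a larger prime -/
theorem cut {P M : Ideal (MvPolynomial σ K)} [P.IsPrime] [M.IsPrime] (hPM : P ≤ M)
    {f : MvPolynomial σ K} (hf : f ∈ M) :
    ∃ Q : Ideal (MvPolynomial σ K), Q.IsPrime ∧ P ≤ Q ∧ f ∈ Q ∧ Q ≤ M ∧ td K P ≤ td K Q + 1 ∧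
      ∀ w : σ → ℕ, WHom w P → (∃ m, IsWeightedHomogeneous w f m) → WHom w Q := by
  obtain ⟨Q, hQ, hQM⟩ := Ideal.exists_minimalPrimes_le (I := P ⊔ Ideal.span {f}) (J := M)
    (sup_le hPM ((Ideal.span_singleton_le_iff_mem _).2 hf))
  refine ⟨Q, hQ.1.1, le_sup_left.trans hQ.1.2, ?_, hQM, td_min K hQ, ?_⟩
  · exact hQ.1.2 (Ideal.mem_sup_right (Ideal.mem_span_singleton_self f))
  · intro w hP hw
    apply WHom.min (WHom.sup hP (WHom.span ?_)) hQ
    rintro g hg
    rw [Set.mem_singleton_iff] at hg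
    rw [hg]
    exact hw

/-- cut a prime by several elements, inside a larger prime -/
theorem cuts {P M : Ideal (MvPolynomial σ K)} [hP : P.IsPrime] [M.IsPrime] (hPM : P ≤ M)
    (s : Finset (MvPolynomial σ K)) : (∀ f ∈ s, f ∈ M) →
    ∃ Q : Ideal (MvPolynomial σ K), Q.IsPrime ∧ P ≤ Q ∧ (∀ f ∈ s, f ∈ Q) ∧ Q ≤ M ∧
      td K P ≤ td K Q + s.card ∧
      ∀ w : σ → ℕ, WHom w P → (∀ f ∈ s, ∃ m, IsWeightedHomogeneous w f m) → WHom w Q := by
  classical
  induction s using Finset.induction_on with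
  | empty =>
    intro _
    exact ⟨P, hP, le_rfl, by simp, hPM, by simp, fun w hw _ => hw⟩
  | insert f s hfs ih =>
    intro h
    obtain ⟨Q, hQ, hPQ, hsQ, hQM, htd, hw⟩ := ih fun g hg => h g (Finset.mem_insert_of_mem hg)
    obtain ⟨Q', hQ', hQQ', hfQ', hQM', htd', hw'⟩ := cut hQM (h f (Finset.mem_insert_self _ _))
    refine ⟨Q', hQ', hPQ.trans hQQ', ?_, hQM', ?_, ?_⟩
    · intro g hg
      rcases Finset.mem_insert.1 hg with rfl | hg
      · exact hfQ'
      · exact hQQ' (hsQ g hg)
    · rw [Finset.card_insert_of_notMem hfs]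
      omega
    · intro w hwP hall
      exact hw' w (hw w hwP fun g hg => hall g (Finset.mem_insert_of_mem hg))
        (hall f (Finset.mem_insert_self _ _))

end cut

section points

variable {K : Type} [Field K] {σ : Type} [Fintype σ]

/-- the maximal ideal of a point -/
noncomputable def pt (v : σ → K) : Ideal (MvPolynomial σ K) := RingHom.ker (aeval v : MvPolynomial σ K →ₐ[K] K)

theorem mem_pt {v : σ → K} {f : MvPolynomial σ K} : f ∈ pt v ↔ aeval v f = 0 := Iff.rfl

instance (v : σ → K) : (pt v).IsPrime := RingHom.ker_isPrime _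

theorem pt_le_of_mem {v : σ → K} {I : Ideal (MvPolynomial σ K)} (h : ∀ j, X j - C (v j) ∈ I) :
    pt v ≤ I := by
  intro f hf
  rw [mem_pt] at hf
  have h1 : f - C (aeval v f) ∈ I := by
    clear hf
    induction f using MvPolynomial.induction_on with
    | C a => simp
    | add p q hp hq =>
      rw [map_add, map_add]
      have : p + q - (C (aeval v p) + C (aeval v q)) =
        (p - C (aeval v p)) + (q - C (aeval v q)) := by ring
      rw [this]
      exact I.add_mem hp hq
    | mul_X p j hp =>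
      rw [map_mul, map_mul, aeval_X]
      have : p * X j - C (aeval v p) * C (v j) =
        (p - C (aeval v p)) * X j + C (aeval v p) * (X j - C (v j)) := by ring
      rw [this]
      exact I.add_mem (I.mul_mem_right _ hp) (I.mul_mem_left _ (h j))
  rwa [hf, C_0, sub_zero] at h1

theorem X_sub_mem_pt (v : σ → K) (j : σ) : X j - C (v j) ∈ pt v := by
  rw [mem_pt]; simp

theorem td_pt (v : σ → K) : td K (pt v) = 0 := by
  unfold td
  have h1 : Algebra.trdeg K (MvPolynomial σ K ⧸ pt v) ≤ Algebra.trdeg K K := by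
    apply trdeg_le_of_injective (Ideal.kerLiftAlg (aeval v : MvPolynomial σ K →ₐ[K] K))
    exact Ideal.kerLiftAlg_injective _
  rw [trdeg_eq_zero (R := K) (A := K)] at h1
  rw [nonpos_iff_eq_zero.1 h1]
  simp

theorem td_le_card (P : Ideal (MvPolynomial σ K)) : td K P ≤ Fintype.card σ := by
  have h1 := trdeg_le_of_surjective (Ideal.Quotient.mkₐ K P) (Ideal.Quotient.mkₐ_surjective K P)
  rw [MvPolynomial.trdeg_of_isDomain, ← td_cast, Cardinal.mk_fintype, Cardinal.lift_natCast] at h1
  exact_mod_cast h1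

/-- A prime through the origin of dimension `> |s|` and elements `s` of the maximal ideal of the
origin have another common zero. -/
theorem exists_point [IsAlgClosed K] {P : Ideal (MvPolynomial σ K)} [P.IsPrime]
    (hP : P ≤ pt (0 : σ → K)) (s : Finset (MvPolynomial σ K)) (hs : ∀ f ∈ s, f ∈ pt (0 : σ → K))
    (h : s.card + 1 ≤ td K P) :
    ∃ v : σ → K, v ≠ 0 ∧ P ≤ pt v ∧ ∀ f ∈ s, f ∈ pt v := by
  obtain ⟨Q, hQ, hPQ, hsQ, hQM, htd, -⟩ := cuts hP s hs
  by_contra hc
  push Not at hc
  have h1 : zeroLocus K Q ⊆ {0} := by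
    intro v hv
    by_contra hv0
    obtain ⟨f, hf, hfv⟩ := hc v (by simpa using hv0) (fun g hg => hv g (hPQ hg))
    exact hfv (hv f (hsQ f hf))
  have h2 : pt (0 : σ → K) ≤ Q := by
    rw [← MvPolynomial.IsPrime.vanishingIdeal_zeroLocus (K := K) Q]
    intro f hf
    rw [mem_vanishingIdeal_iff]
    intro v hv
    rw [Set.mem_singleton_iff.1 (h1 hv)]
    exact hf
  have h3 : td K Q ≤ td K (pt (0 : σ → K)) := by
    rw [le_antisymm hQM h2]
  rw [td_pt] at h3
  omega

end points

end Pool.Agent.HS38.PL
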