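import Pool.Agent.HS38.PL.Main

/-!
# Representations by few forms
-/

set_option autoImplicit false

namespace Pool.Agent.HS38.PL

open MvPolynomial Matrix

variable {K : Type} [Field K]

theorem pderiv_mem {σ : Type} {I : Ideal (MvPolynomial σ K)} {a b h : MvPolynomial σ K}
    (ha : a ∈ I) (hb : b ∈ I) (x : σ) : pderiv x (a * (b * h)) ∈ I := by
  rw [pderiv_mul]
  exact I.add_mem (I.mul_mem_left _ (I.mul_mem_right _ hb)) (I.mul_mem_right _ ha)

/-- the derivatives of a polynomial in forms of positive degree less than `n` are in the ideal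
generated by the forms, when the polynomial is weighted homogeneous of weight `n` -/
theorem pderiv_aeval_mem {σ : Type} {r : ℕ} (g : Fin r → MvPolynomial σ K) (d : Fin r → ℕ)
    {n : ℕ} (hn : 0 < n) (hd : ∀ i, d i < n) (F : MvPolynomial (Fin r) K)
    (hF : IsWeightedHomogeneous d F n) (x : σ) :
    pderiv x (aeval g F) ∈ Ideal.span (Set.range g) := by
  classical
  have hg : ∀ i, g i ∈ Ideal.span (Set.range g) := fun i => Ideal.subset_span ⟨i, rfl⟩
  rw [F.as_sum, map_sum, map_sum]
  refine Ideal.sum_mem _ fun s hs => ?_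
  have hs' : Finsupp.weight d s = n := hF (mem_support_iff.1 hs)
  obtain ⟨i, hi⟩ : ∃ i, s i ≠ 0 := by
    by_contra h
    push Not at h
    have : s = 0 := Finsupp.ext h
    rw [this, map_zero] at hs'
    omega
  obtain ⟨t, rfl⟩ : ∃ t, s = Finsupp.single i 1 + t :=
    ⟨s - Finsupp.single i 1, (add_tsub_cancel_of_le (Finsupp.single_le_iff.2 (by omega))).symm⟩
  rw [map_add, Finsupp.weight_single, one_smul] at hs'
  obtain ⟨j, hj⟩ : ∃ j, t j ≠ 0 := by
    by_contra h
    push Not at h
    have : t = 0 := Finsupp.ext h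
    rw [this, map_zero] at hs'
    have := hd i
    omega
  obtain ⟨w, rfl⟩ : ∃ w, t = Finsupp.single j 1 + w :=
    ⟨t - Finsupp.single j 1, (add_tsub_cancel_of_le (Finsupp.single_le_iff.2 (by omega))).symm⟩
  have h1 : ∀ c : K, (monomial (Finsupp.single i 1 + (Finsupp.single j 1 + w)) c :
      MvPolynomial (Fin r) K) = X i * (X j * monomial w c) := by
    intro c
    rw [X, X, monomial_mul, monomial_mul, one_mul, one_mul]
  have h2 : ∀ c : K, aeval g (monomial (Finsupp.single i 1 + (Finsupp.single j 1 + w)) c :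
      MvPolynomial (Fin r) K) = g i * (g j * aeval g (monomial w c : MvPolynomial (Fin r) K)) := by
    intro c
    rw [h1, map_mul, map_mul, aeval_X, aeval_X]
  rw [h2]
  exact pderiv_mem (hg i) (hg j) x

theorem aeval_weightedHomogeneousComponent {σ : Type} {r : ℕ} (g : Fin r → MvPolynomial σ K)
    (d : Fin r → ℕ) (hg : ∀ i, (g i).IsHomogeneous (d i)) (F : MvPolynomial (Fin r) K) (n : ℕ) :
    homogeneousComponent n (aeval g F) = aeval g (weightedHomogeneousComponent d n F) := by
  classical
  have hmono : ∀ (s : Fin r →₀ ℕ) (c : K),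
      (aeval g (monomial s c : MvPolynomial (Fin r) K)).IsHomogeneous (Finsupp.weight d s) := by
    intro s c
    rw [aeval_monomial, Finsupp.weight_apply, Finsupp.prod_fintype _ _ (fun _ => pow_zero _),
      Finsupp.sum_fintype _ _ (by intro i; simp)]
    have h1 : (algebraMap K (MvPolynomial σ K) c).IsHomogeneous 0 := isHomogeneous_C σ c
    have h2 := IsHomogeneous.prod Finset.univ (fun i => g i ^ s i) (fun i => s i • d i)
      (fun i _ => by
        have := (hg i).pow (s i)
        rwa [mul_comm, ← smul_eq_mul] at this)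
    simpa using h1.mul h2
  conv_lhs => rw [F.as_sum]
  rw [map_sum, map_sum, weightedHomogeneousComponent_apply, map_sum]
  rw [Finset.sum_filter]
  refine Finset.sum_congr rfl fun s _ => ?_
  split_ifs with h
  · have := hmono s (coeff s F)
    rw [h] at this
    rw [homogeneousComponent_of_mem ((mem_homogeneousSubmodule _ _).2 this), if_pos rfl]
  · have := hmono s (coeff s F)
    rw [homogeneousComponent_of_mem ((mem_homogeneousSubmodule _ _).2 this), if_neg (Ne.symm h)]

theorem span_ne_top {σ : Type} {r : ℕ} (g : Fin r → MvPolynomial σ K)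
    (hg : ∀ i, constantCoeff (g i) = 0) : Ideal.span (Set.range g) ≠ ⊤ := by
  intro h
  have h2 : Ideal.span (Set.range g) ≤ RingHom.ker (constantCoeff : MvPolynomial σ K →+* K) := by
    rw [Ideal.span_le]
    rintro _ ⟨i, rfl⟩
    rw [SetLike.mem_coe, RingHom.mem_ker, hg]
  rw [h, top_le_iff] at h2
  have h3 := (Ideal.eq_top_iff_one _).1 h2
  rw [RingHom.mem_ker, map_one] at h3
  exact one_ne_zero h3

theorem height_span_le {σ : Type} [Finite σ] {r : ℕ} (g : Fin r → MvPolynomial σ K)
    (hg : ∀ i, constantCoeff (g i) = 0) : (Ideal.span (Set.range g)).height ≤ r := by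
  have h3 := Ideal.height_le_spanFinrank _ (span_ne_top g hg)
  refine h3.trans (Nat.cast_le.2 ?_)
  refine (Submodule.spanFinrank_span_le_ncard_of_finite (Set.finite_range g)).trans ?_
  have h5 := Set.ncard_image_le (f := g) (Set.finite_univ (α := Fin r))
  rw [Set.image_univ, Set.ncard_univ, Nat.card_eq_fintype_card, Fintype.card_fin] at h5
  exact h5

theorem card_forms [IsAlgClosed K] [CharZero K] {n : ℕ} (hn : 2 ≤ n) {r : ℕ}
    (g : Fin r → MvPolynomial (Fin n × Fin n) K) (d : Fin r → ℕ)
    (hg : ∀ i, (g i).IsHomogeneous (d i)) (h0 : ∀ i, 0 < d i) (h1 : ∀ i, d i < n)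
    (F : MvPolynomial (Fin r) K) (hF : aeval g F = gp K n) : n + 2 ≤ r := by
  classical
  have hn0 : 0 < n := by omega
  have hgp : (gp K n).IsHomogeneous n := by
    rw [gp_eq]
    apply IsHomogeneous.sum
    intro σ _
    have := IsHomogeneous.prod (R := K) Finset.univ (fun l : Fin n => (X (σ l, l) : MvPolynomial (Fin n × Fin n) K))
      (fun _ => 1) (fun l _ => isHomogeneous_X K _)
    simpa using this
  have hG : aeval g (weightedHomogeneousComponent d n F) = gp K n := by
    rw [← aeval_weightedHomogeneousComponent g d hg, hF,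
      homogeneousComponent_of_mem ((mem_homogeneousSubmodule _ _).2 hgp), if_pos rfl]
  have hle : jac K n ≤ Ideal.span (Set.range g) := by
    unfold jac
    rw [Ideal.span_le]
    rintro _ ⟨x, rfl⟩
    rw [← hG]
    exact pderiv_aeval_mem g d hn0 h1 _ (weightedHomogeneousComponent_isWeightedHomogeneous _ _) x
  have h6 := (height_jac (K := K) hn).trans ((Ideal.height_mono hle).trans
    (height_span_le g fun i => by
      rw [constantCoeff_eq]
      exact (hg i).coeff_eq_zero (by simp; exact (h0 i).ne)))
  exact_mod_cast h6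

/-- the permanent as a sum of products of polynomials in complementary sets of rows -/
theorem card_rows [IsAlgClosed K] [CharZero K] {n : ℕ} (hn : 0 < n) {r : ℕ}
    (I : Fin r → Finset (Fin n)) (g h : Fin r → MvPolynomial (Fin n × Fin n) K)
    (hg : ∀ k, ∀ x ∈ (g k).vars, x.1 ∈ I k) (hh : ∀ k, ∀ x ∈ (h k).vars, x.1 ∉ I k)
    (hg0 : ∀ k, constantCoeff (g k) = 0) (hh0 : ∀ k, constantCoeff (h k) = 0)
    (hsum : ∑ k, g k * h k = gp K n) : n ≤ r := by
  classical
  set i₀ : Fin n := ⟨0, hn⟩
  set a : Fin r → MvPolynomial (Fin n × Fin n) K := fun k => if i₀ ∈ I k then h k else g k with ha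
  have hle : rowJac K n i₀ ≤ Ideal.span (Set.range a) := by
    unfold rowJac
    rw [Ideal.span_le]
    rintro _ ⟨j, rfl⟩
    rw [SetLike.mem_coe]
    simp only
    rw [← hsum, map_sum]
    refine Ideal.sum_mem _ fun k _ => ?_
    have hak : a k ∈ Ideal.span (Set.range a) := Ideal.subset_span ⟨k, rfl⟩
    rw [pderiv_mul]
    by_cases hk : i₀ ∈ I k
    · have h1 : a k = h k := by simp only [ha, if_pos hk]
      have h2 : pderiv (i₀, j) (h k) = 0 := by
        apply pderiv_eq_zero_of_notMem_vars
        intro hx
        exact hh k _ hx hk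
      rw [h2, mul_zero, add_zero]
      rw [h1] at hak
      exact Ideal.mul_mem_left _ _ hak
    · have h1 : a k = g k := by simp only [ha, if_neg hk]
      have h2 : pderiv (i₀, j) (g k) = 0 := by
        apply pderiv_eq_zero_of_notMem_vars
        intro hx
        exact hk (hg k _ hx)
      rw [h2, zero_mul, zero_add]
      rw [h1] at hak
      exact Ideal.mul_mem_right _ _ hak
  have h6 := (height_rowJac (K := K) i₀).trans ((Ideal.height_mono hle).trans
    (height_span_le a fun k => by
      simp only [ha]
      split_ifs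
      · exact hh0 k
      · exact hg0 k))
  exact_mod_cast h6

end Pool.Agent.HS38.PL
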