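import Pool.Agent.HS38.PL.Alg

/-!
# Points of small degree on varieties that are cones in every row

`R` is the polynomial ring in the entries of a `p × q` matrix. Let `J` be an ideal generated by
polynomials that are homogeneous in the entries of every row, and let `ℓ_1, …, ℓ_(q-1)` be linear forms.
If the height of `J` is `h`, there are `c_1, …, c_p` with `∑ c_i ≤ h` and a matrix `u` in `V (J)` with
`ℓ_e (u_i) = 0` for `e > c_i`, and `u_i ≠ 0` (or `c_i = q`).
-/

set_option autoImplicit false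

namespace Pool.Agent.HS38.PL

open MvPolynomial

variable {K : Type} [Field K] {p q : ℕ}

/-- polynomials in the entries of the row `i` -/
noncomputable def rowHom (i : Fin p) : MvPolynomial (Fin q) K →ₐ[K] MvPolynomial (Fin p × Fin q) K :=
  rename (fun j => (i, j))

/-- all rows but `i` are evaluated -/
noncomputable def pr (u : Fin p → Fin q → K) (i : Fin p) :
    MvPolynomial (Fin p × Fin q) K →ₐ[K] MvPolynomial (Fin q) K :=
  aeval (fun x => if x.1 = i then X x.2 else C (u x.1 x.2))

/-- the maximal ideal of a matrix -/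
noncomputable def mpt (u : Fin p → Fin q → K) : Ideal (MvPolynomial (Fin p × Fin q) K) :=
  pt (fun x : Fin p × Fin q => u x.1 x.2)

structure St (J : Ideal (MvPolynomial (Fin p × Fin q) K)) (E : Finset (Fin p))
    (u : Fin p → Fin q → K) (Q : Ideal (MvPolynomial (Fin p × Fin q) K)) : Prop where
  prime : Q.IsPrime
  le : J ≤ Q
  mem : ∀ i ∈ E, ∀ j, X (i, j) - C (u i j) ∈ Q
  zero : ∀ i, i ∉ E → u i = 0
  hom : ∀ ω : Fin p → ℕ, (∀ i ∈ E, ω i = 0) → WHom (fun x : Fin p × Fin q => ω x.1) Q
  ker : Q ≤ mpt u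

theorem rowHom_hom (i : Fin p) (ω : Fin p → ℕ) (hω : ω i = 0) (f : MvPolynomial (Fin q) K) :
    IsWeightedHomogeneous (fun x : Fin p × Fin q => ω x.1) (rowHom i f) 0 := by
  unfold rowHom
  induction f using MvPolynomial.induction_on with
  | C a =>
    rw [rename_C]
    exact isWeightedHomogeneous_C _ _
  | add f g hf hg =>
    rw [map_add]
    exact hf.add hg
  | mul_X f j hf =>
    rw [map_mul, rename_X]
    have h1 := isWeightedHomogeneous_X K (fun x : Fin p × Fin q => ω x.1) (i, j)
    have h2 := hf.mul h1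
    simpa only [hω, add_zero] using h2

theorem rowHom_pr_mem {J : Ideal (MvPolynomial (Fin p × Fin q) K)} {E : Finset (Fin p)}
    {u : Fin p → Fin q → K} {Q : Ideal (MvPolynomial (Fin p × Fin q) K)} (h : St J E u Q)
    {i : Fin p} (hi : i ∉ E) {f : MvPolynomial (Fin p × Fin q) K} (hf : f ∈ Q) :
    rowHom i (pr u i f) ∈ Q := by
  classical
  set ω : Fin p → ℕ := fun l => if l ∈ E ∨ l = i then 0 else 1 with hω
  have hw : WHom (fun x : Fin p × Fin q => ω x.1) Q := by
    apply h.hom
    intro l hl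
    simp [hω, hl]
  have h0 := hw.comp hf 0
  -- the two homomorphisms to the quotient
  let φ : MvPolynomial (Fin p × Fin q) K →ₐ[K] (MvPolynomial (Fin p × Fin q) K ⧸ Q) :=
    Ideal.Quotient.mkₐ K Q
  let ψ : MvPolynomial (Fin p × Fin q) K →ₐ[K] (MvPolynomial (Fin p × Fin q) K ⧸ Q) :=
    φ.comp ((rowHom i).comp (pr u i))
  have hX : ∀ x : Fin p × Fin q, ω x.1 = 0 → ψ (X x) = φ (X x) := by
    rintro ⟨l, j⟩ hl
    simp only [hω] at hl
    show φ (rowHom i (pr u i (X (l, j)))) = φ (X (l, j))
    unfold pr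
    rw [aeval_X]
    by_cases hli : l = i
    · subst hli
      simp [rowHom]
    · have hlE : l ∈ E := by
        by_contra hlE
        simp [hlE, hli] at hl
      rw [if_neg hli]
      have h1 := h.mem l hlE j
      have h2 : φ (X (l, j) - C (u l j)) = 0 := Ideal.Quotient.eq_zero_iff_mem.2 h1
      rw [map_sub, sub_eq_zero] at h2
      rw [h2]
      simp [rowHom]
  have hX0 : ∀ x : Fin p × Fin q, ω x.1 ≠ 0 → ψ (X x) = 0 := by
    rintro ⟨l, j⟩ hl
    simp only [hω] at hl
    have hli : ¬ (l ∈ E ∨ l = i) := by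
      intro hh
      exact hl (if_pos hh)
    rw [not_or] at hli
    show φ (rowHom i (pr u i (X (l, j)))) = 0
    unfold pr
    rw [aeval_X, if_neg hli.2, h.zero l hli.1]
    simp
  have hmon : ∀ (d : Fin p × Fin q →₀ ℕ) (a : K),
      ψ (monomial d a) = if Finsupp.weight (fun x : Fin p × Fin q => ω x.1) d = 0
        then φ (monomial d a) else 0 := by
    intro d a
    rw [monomial_eq, map_mul, map_mul, Finsupp.prod, map_prod, map_prod]
    have hC : ψ (C a) = φ (C a) := by
      show φ (rowHom i (pr u i (C a))) = φ (C a)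
      simp [rowHom, pr]
    split_ifs with hd
    · rw [hC]
      congr 1
      refine Finset.prod_congr rfl fun x hx => ?_
      rw [map_pow, map_pow, hX x]
      rw [Finsupp.weight_apply, Finsupp.sum, Finset.sum_eq_zero_iff] at hd
      have h3 := hd x hx
      rw [smul_eq_mul, mul_eq_zero] at h3
      rcases h3 with h3 | h3
      · exact absurd h3 (Finsupp.mem_support_iff.1 hx)
      · exact h3
    · rw [Finsupp.weight_apply, Finsupp.sum, Finset.sum_eq_zero_iff] at hd
      push Not at hd
      obtain ⟨x, hx, hxd⟩ := hd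
      rw [Finset.prod_eq_zero hx, mul_zero]
      rw [map_pow, hX0 x, zero_pow (Finsupp.mem_support_iff.1 hx)]
      intro h4
      apply hxd
      rw [h4, smul_zero]
  have hfin : ψ f = φ (weightedHomogeneousComponent (fun x : Fin p × Fin q => ω x.1) 0 f) := by
    rw [weightedHomogeneousComponent_apply]
    conv_lhs => rw [f.as_sum]
    rw [map_sum, map_sum, Finset.sum_filter]
    refine Finset.sum_congr rfl fun d _ => ?_
    rw [hmon]
  have h5 : φ (weightedHomogeneousComponent (fun x : Fin p × Fin q => ω x.1) 0 f) = 0 :=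
    Ideal.Quotient.eq_zero_iff_mem.2 h0
  rw [h5] at hfin
  exact Ideal.Quotient.eq_zero_iff_mem.1 hfin

theorem aeval_pr (u : Fin p → Fin q → K) (i : Fin p) (v : Fin q → K)
    (f : MvPolynomial (Fin p × Fin q) K) :
    aeval v (pr u i f) = aeval (fun x : Fin p × Fin q => Function.update u i v x.1 x.2) f := by
  have h1 : (aeval v : MvPolynomial (Fin q) K →ₐ[K] K).comp (pr u i) =
      aeval (fun x : Fin p × Fin q => Function.update u i v x.1 x.2) := by
    apply MvPolynomial.algHom_ext
    rintro ⟨l, j⟩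
    simp only [pr, AlgHom.comp_apply, aeval_X]
    by_cases hl : l = i
    · subst hl
      simp
    · rw [if_neg hl, Function.update_of_ne hl]
      simp
  exact congrArg (fun φ => φ f) h1

theorem aeval_rowHom (w : Fin p × Fin q → K) (i : Fin p) (f : MvPolynomial (Fin q) K) :
    aeval w (rowHom i f) = aeval (fun j => w (i, j)) f := by
  unfold rowHom
  rw [aeval_rename]
  rfl

theorem step [IsAlgClosed K] {J : Ideal (MvPolynomial (Fin p × Fin q) K)} {E : Finset (Fin p)}
    {u : Fin p → Fin q → K} {Q : Ideal (MvPolynomial (Fin p × Fin q) K)} (h : St J E u Q)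
    {i : Fin p} (hi : i ∉ E) (ℓ : ℕ → MvPolynomial (Fin q) K) (hℓ : ∀ e, ℓ e ∈ pt (0 : Fin q → K))
    (c : ℕ) (hc : td K (Q.comap (rowHom i : MvPolynomial (Fin q) K →ₐ[K] _)) + c = q) :
    ∃ (v : Fin q → K) (Q' : Ideal (MvPolynomial (Fin p × Fin q) K)),
      St J (insert i E) (Function.update u i v) Q' ∧ td K Q ≤ td K Q' + (q - c) ∧
      (∀ e, c < e → e < q → ℓ e ∈ pt v) ∧ (v ≠ 0 ∨ q ≤ c) := by
  classical
  have hQ := h.prime
  set 𝔭 := Q.comap (rowHom i : MvPolynomial (Fin q) K →ₐ[K] _) with h𝔭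
  have hp : 𝔭.IsPrime := Ideal.IsPrime.comap _
  have hp0 : 𝔭 ≤ pt (0 : Fin q → K) := by
    intro f hf
    have h1 := h.ker (Ideal.mem_comap.1 hf)
    unfold mpt at h1
    rw [mem_pt, aeval_rowHom] at h1
    rw [mem_pt]
    simp only [h.zero i hi] at h1
    exact h1
  obtain ⟨v, hpv, hℓv, hv0⟩ : ∃ v : Fin q → K, 𝔭 ≤ pt v ∧
      (∀ e, c < e → e < q → ℓ e ∈ pt v) ∧ (v ≠ 0 ∨ q ≤ c) := by
    rcases Nat.eq_zero_or_pos (td K 𝔭) with h0 | h0
    · exact ⟨0, hp0, fun e _ _ => hℓ e, Or.inr (by omega)⟩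
    · obtain ⟨v, hv, hv1, hv2⟩ := exists_point hp0 ((Finset.Ioo c q).image ℓ)
        (by
          intro f hf
          obtain ⟨e, _, rfl⟩ := Finset.mem_image.1 hf
          exact hℓ e)
        (by
          have := Finset.card_image_le (s := Finset.Ioo c q) (f := ℓ)
          rw [Nat.card_Ioo] at this
          omega)
      refine ⟨v, hv1, ?_, Or.inl hv⟩
      intro e he1 he2
      exact hv2 _ (Finset.mem_image_of_mem _ (Finset.mem_Ioo.2 ⟨he1, he2⟩))
  obtain ⟨s, hs1, hs2, hs3⟩ := exists_param K hpv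
  have hQM : Q ≤ mpt (Function.update u i v) := by
    intro f hf
    have h1 : pr u i f ∈ 𝔭 := Ideal.mem_comap.2 (rowHom_pr_mem h hi hf)
    have h2 := hpv h1
    rw [mem_pt, aeval_pr] at h2
    exact h2
  have hsM : ∀ f ∈ s.image (rowHom i : MvPolynomial (Fin q) K →ₐ[K] MvPolynomial (Fin p × Fin q) K),
      f ∈ mpt (Function.update u i v) := by
    intro f hf
    obtain ⟨g, hg, rfl⟩ := Finset.mem_image.1 hf
    have h1 := hs2 g hg
    unfold mpt
    rw [mem_pt] at h1 ⊢
    rw [aeval_rowHom]
    simpa using h1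
  have : (mpt (Function.update u i v)).IsPrime := by
    unfold mpt
    infer_instance
  obtain ⟨Q', hQ', hQQ', hsQ', hQM', htd, hw⟩ := cuts hQM _ hsM
  have hcomap : Q'.comap (rowHom i : MvPolynomial (Fin q) K →ₐ[K] _) = pt v := by
    apply hs3
    · exact Ideal.IsPrime.comap _
    · exact Ideal.comap_mono hQQ'
    · intro f hf
      exact Ideal.mem_comap.2 (hsQ' _ (Finset.mem_image_of_mem _ hf))
    · intro f hf
      have h1 := hQM' (Ideal.mem_comap.1 hf)
      unfold mpt at h1
      rw [mem_pt, aeval_rowHom] at h1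
      rw [mem_pt]
      simpa using h1
  refine ⟨v, Q', ⟨hQ', h.le.trans hQQ', ?_, ?_, ?_, hQM'⟩, ?_, hℓv, hv0⟩
  · intro l hl j
    rcases Finset.mem_insert.1 hl with rfl | hlE
    · rw [Function.update_self]
      have h1 : X j - C (v j) ∈ Q'.comap (rowHom l : MvPolynomial (Fin q) K →ₐ[K] _) := by
        rw [hcomap]
        exact X_sub_mem_pt v j
      rw [Ideal.mem_comap] at h1
      simpa [rowHom] using h1
    · have hli : l ≠ i := by
        rintro rfl
        exact hi hlE
      rw [Function.update_of_ne hli]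
      exact hQQ' (h.mem l hlE j)
  · intro l hl
    rw [Finset.mem_insert, not_or] at hl
    rw [Function.update_of_ne hl.1]
    exact h.zero l hl.2
  · intro ω hω
    apply hw
    · exact h.hom ω fun l hl => hω l (Finset.mem_insert_of_mem hl)
    · intro f hf
      obtain ⟨g, _, rfl⟩ := Finset.mem_image.1 hf
      exact ⟨0, rowHom_hom i ω (hω i (Finset.mem_insert_self _ _)) g⟩
  · have h1 := Finset.card_image_le (s := s)
      (f := (rowHom i : MvPolynomial (Fin q) K →ₐ[K] MvPolynomial (Fin p × Fin q) K))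
    omega

theorem game [IsAlgClosed K] {J P : Ideal (MvPolynomial (Fin p × Fin q) K)}
    (hP : St J ∅ 0 P) (ℓ : ℕ → MvPolynomial (Fin q) K) (hℓ : ∀ e, ℓ e ∈ pt (0 : Fin q → K))
    (E : Finset (Fin p)) :
    ∃ (u : Fin p → Fin q → K) (c : Fin p → ℕ) (Q : Ideal (MvPolynomial (Fin p × Fin q) K)),
      St J E u Q ∧ td K P + ∑ i ∈ E, c i ≤ td K Q + E.card * q ∧
      ∀ i ∈ E, (∀ e, c i < e → e < q → ℓ e ∈ pt (u i)) ∧ (u i ≠ 0 ∨ q ≤ c i) := by
  classical
  induction E using Finset.induction_on with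
  | empty => exact ⟨0, 0, P, hP, by simp, by simp⟩
  | insert i E hi ih =>
    obtain ⟨u, c, Q, hQ, htd, hall⟩ := ih
    have hle : td K (Q.comap (rowHom i : MvPolynomial (Fin q) K →ₐ[K] _)) ≤ q := by
      have := td_le_card (K := K) (Q.comap (rowHom i : MvPolynomial (Fin q) K →ₐ[K] _))
      simpa using this
    obtain ⟨a, ha⟩ := Nat.exists_eq_add_of_le hle
    obtain ⟨v, Q', hQ', htd', hv1, hv2⟩ := step hQ hi ℓ hℓ a ha.symm
    refine ⟨Function.update u i v, Function.update c i a, Q', hQ', ?_, ?_⟩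
    · rw [Finset.sum_insert hi, Function.update_self, Finset.card_insert_of_notMem hi]
      have h1 : ∑ l ∈ E, Function.update c i a l = ∑ l ∈ E, c l := by
        refine Finset.sum_congr rfl fun l hl => ?_
        rw [Function.update_of_ne]
        rintro rfl
        exact hi hl
      rw [h1, add_mul, one_mul]
      omega
    · intro l hl
      rcases Finset.mem_insert.1 hl with rfl | hlE
      · rw [Function.update_self, Function.update_self]
        exact ⟨hv1, hv2⟩
      · have hli : l ≠ i := by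
          rintro rfl
          exact hi hlE
        rw [Function.update_of_ne hli, Function.update_of_ne hli]
        exact hall l hlE

/-- the dimension of a prime of height at most `h` -/
theorem card_le_td {σ : Type} [Fintype σ] (P : Ideal (MvPolynomial σ K)) [P.IsPrime] (h : ℕ)
    (hh : P.height ≤ h) : Fintype.card σ ≤ td K P + h := by
  obtain ⟨s, hs, hc⟩ := Ideal.exists_finset_card_eq_height_of_isNoetherianRing P
  have hsP : ∀ f ∈ s, f ∈ P := fun f hf => hs.1.2 (Ideal.subset_span hf)
  obtain ⟨Q, hQ, -, hsQ, hQP, htd, -⟩ := cuts (P := (⊥ : Ideal (MvPolynomial σ K))) (M := P)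
    bot_le s hsP
  have h1 : Ideal.span (s : Set (MvPolynomial σ K)) ≤ Q := Ideal.span_le.2 hsQ
  have h2 : P ≤ Q := hs.2 ⟨hQ, h1⟩ hQP
  rw [le_antisymm hQP h2] at htd
  rw [← hc] at hh
  have h3 : s.card ≤ h := by exact_mod_cast hh
  have h4 : Fintype.card σ ≤ td K (⊥ : Ideal (MvPolynomial σ K)) := by
    have hinj : Function.Injective (Ideal.Quotient.mkₐ K (⊥ : Ideal (MvPolynomial σ K))) := by
      rw [Ideal.Quotient.mkₐ_eq_mk, RingHom.injective_iff_ker_eq_bot, Ideal.mk_ker]
    have h5 := trdeg_le_of_injective _ hinj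
    rw [MvPolynomial.trdeg_of_isDomain, ← td_cast, Cardinal.mk_fintype, Cardinal.lift_natCast] at h5
    exact_mod_cast h5
  omega

/-- Points on row-homogeneous varieties. -/
theorem exists_matrix [IsAlgClosed K] {J : Ideal (MvPolynomial (Fin p × Fin q) K)}
    (hJ : ∀ ω : Fin p → ℕ, WHom (fun x : Fin p × Fin q => ω x.1) J) {P : Ideal _}
    (hP : P ∈ J.minimalPrimes) (h : ℕ) (hh : P.height ≤ h)
    (ℓ : ℕ → MvPolynomial (Fin q) K) (hℓ : ∀ e, ℓ e ∈ pt (0 : Fin q → K)) :
    ∃ (u : Fin p → Fin q → K) (c : Fin p → ℕ), ∑ i, c i ≤ h ∧ J ≤ mpt u ∧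
      ∀ i, (∀ e, c i < e → e < q → ℓ e ∈ pt (u i)) ∧ (u i ≠ 0 ∨ q ≤ c i) := by
  classical
  have hPp : P.IsPrime := hP.1.1
  have hPw : ∀ ω : Fin p → ℕ, WHom (fun x : Fin p × Fin q => ω x.1) P := fun ω => (hJ ω).min hP
  have hst : St J ∅ 0 P := by
    refine ⟨hPp, hP.1.2, by simp, fun _ _ => rfl, fun ω _ => hPw ω, ?_⟩
    intro f hf
    have h1 := (hPw (fun _ => 1)).comp hf 0
    unfold mpt
    rw [mem_pt]
    have h2 : weightedHomogeneousComponent (fun _ : Fin p × Fin q => 1) 0 f = C (coeff 0 f) := by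
      rw [weightedHomogeneousComponent_apply]
      have h3 : ∀ d ∈ f.support, (Finsupp.weight (fun _ : Fin p × Fin q => 1) d = 0 ↔ d = 0) := by
        intro d _
        constructor
        · intro hd
          rw [Finsupp.weight_apply, Finsupp.sum, Finset.sum_eq_zero_iff] at hd
          by_contra hd0
          obtain ⟨x, hx⟩ := Finsupp.support_nonempty_iff.2 hd0
          have := hd x hx
          simp at this
          exact (Finsupp.mem_support_iff.1 hx) this
        · rintro rfl
          simp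
      rw [Finset.filter_congr h3, Finset.filter_eq']
      split_ifs with h0
      · rw [Finset.sum_singleton, ← C_apply]
      · rw [Finset.sum_empty]
        rw [notMem_support_iff] at h0
        rw [h0, C_0]
    rw [h2] at h1
    have h4 : coeff 0 f = 0 := by
      by_contra h5
      apply hPp.ne_top
      rw [Ideal.eq_top_iff_one]
      have := P.mul_mem_left (C (coeff 0 f)⁻¹) h1
      rwa [← C_mul, inv_mul_cancel₀ h5, C_1] at this
    have h6 : aeval (fun x : Fin p × Fin q => (0 : Fin p → Fin q → K) x.1 x.2) f =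
        constantCoeff f := by
      have : (fun x : Fin p × Fin q => (0 : Fin p → Fin q → K) x.1 x.2) = 0 := rfl
      rw [this, aeval_zero]
      rfl
    rw [h6, constantCoeff_eq, h4]
  obtain ⟨u, c, Q, hQ, htd, hall⟩ := game hst ℓ hℓ Finset.univ
  have h7 : mpt u ≤ Q := by
    unfold mpt
    apply pt_le_of_mem
    rintro ⟨i, j⟩
    exact hQ.mem i (Finset.mem_univ i) j
  have h8 : td K Q = 0 := by
    have : td K Q ≤ td K (mpt u) := td_le K h7
    unfold mpt at this
    rw [td_pt] at this
    omega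
  have h9 := card_le_td P h hh
  rw [Fintype.card_prod, Fintype.card_fin, Fintype.card_fin] at h9
  rw [h8, Finset.card_univ, Fintype.card_fin] at htd
  refine ⟨u, c, by omega, hQ.le.trans hQ.ker, fun i => hall i (Finset.mem_univ i)⟩

end Pool.Agent.HS38.PL
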