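import Mathlib

/-!
# Permanents of monomials at the roots of unity
-/

set_option autoImplicit false

namespace Pool.Agent.HS38.PL

open Finset Equiv

variable {K : Type*} [Field K] {n : ℕ}

/-- the permanent of the matrix `(y_l ^ a_i)` -/
def PS (y : Fin n → K) (a : Fin n → ℕ) : K := ∑ σ : Perm (Fin n), ∏ i, y (σ i) ^ a i

theorem ps_perm (y : Fin n → K) (a : Fin n → ℕ) (π : Perm (Fin n)) : PS y (a ∘ π) = PS y a := by
  unfold PS
  rw [← Equiv.sum_comp (Equiv.mulRight π) (fun σ : Perm (Fin n) => ∏ i, y (σ i) ^ (a ∘ π) i)]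
  refine Finset.sum_congr rfl fun σ _ => ?_
  simp only [Equiv.coe_mulRight, Perm.mul_apply, Function.comp]
  exact Equiv.prod_comp π (fun i => y (σ i) ^ a i)

theorem ps_rec (y : Fin n → K) (a : Fin n → ℕ) (i : Fin n) (h : ∑ l, y l ^ a i = 0) :
    PS y a = - ∑ l ∈ univ.erase i, PS y (Function.update (Function.update a i 0) l (a l + a i)) := by
  unfold PS
  rw [Finset.sum_comm, ← Finset.sum_neg_distrib]
  refine Finset.sum_congr rfl fun σ _ => ?_
  have h1 : y (σ i) ^ a i = - ∑ l ∈ univ.erase i, y (σ l) ^ a i := by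
    have h2 : ∑ l, y (σ l) ^ a i = 0 := by
      rw [Equiv.sum_comp σ (fun l => y l ^ a i)]
      exact h
    rw [← Finset.add_sum_erase _ _ (mem_univ i)] at h2
    exact eq_neg_of_add_eq_zero_left h2
  rw [← Finset.mul_prod_erase _ _ (mem_univ i), h1, neg_mul, Finset.sum_mul]
  congr 1
  refine Finset.sum_congr rfl fun l hl => ?_
  have hli : l ≠ i := (Finset.mem_erase.1 hl).1
  have h3 : ∏ j, y (σ j) ^ (Function.update (Function.update a i 0) l (a l + a i)) j =
      ∏ j ∈ univ.erase i, y (σ j) ^ (Function.update (Function.update a i 0) l (a l + a i)) j := by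
    rw [← Finset.mul_prod_erase _ _ (mem_univ i)]
    rw [Function.update_of_ne hli.symm, Function.update_self, pow_zero, one_mul]
  rw [h3, ← Finset.mul_prod_erase _ _ hl, ← Finset.mul_prod_erase _ _ hl, Function.update_self,
    pow_add]
  have h4 : ∀ j ∈ (univ.erase i).erase l,
      y (σ j) ^ (Function.update (Function.update a i 0) l (a l + a i)) j = y (σ j) ^ a j := by
    intro j hj
    rw [Finset.mem_erase, Finset.mem_erase] at hj
    rw [Function.update_of_ne hj.1, Function.update_of_ne hj.2.1]
  rw [Finset.prod_congr rfl h4]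
  ring

/-- The value of the permanent of the matrix `(y_l ^ a_i)` for the `n`-th roots of unity `y_l` and
`∑ a_i = n`. -/
theorem ps_val [CharZero K] (y : Fin n → K) (hy : ∀ e, 0 < e → e < n → ∑ l, y l ^ e = 0)
    (hn : ∀ l, y l ^ n = 1) (k : ℕ) : ∀ a : Fin n → ℕ, ∑ i, a i = n →
    (univ.filter fun i => a i ≠ 0).card = k + 1 →
    PS y a = (-1) ^ k * ((n * k.factorial * (n - (k + 1)).factorial : ℕ) : K) := by
  induction k with
  | zero =>
    intro a ha hc
    rw [zero_add, Finset.card_eq_one] at hc
    obtain ⟨i, hi⟩ := hc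
    have h0 : ∀ j, j ≠ i → a j = 0 := by
      intro j hj
      by_contra h
      have : j ∈ univ.filter fun i => a i ≠ 0 := by simpa using h
      rw [hi, Finset.mem_singleton] at this
      exact hj this
    have hai : a i = n := by
      rw [← ha]
      exact (Finset.sum_eq_single i (fun j _ hj => h0 j hj) (fun h => absurd (mem_univ i) h)).symm
    unfold PS
    have h1 : ∀ σ : Perm (Fin n), ∏ j, y (σ j) ^ a j = 1 := by
      intro σ
      apply Finset.prod_eq_one
      intro j _
      by_cases hj : j = i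
      · rw [hj, hai, hn]
      · rw [h0 j hj, pow_zero]
    rw [Finset.sum_congr rfl fun σ _ => h1 σ, Finset.sum_const, Finset.card_univ,
      Fintype.card_perm, Fintype.card_fin]
    have hn0 : n ≠ 0 := by
      rintro rfl
      exact i.elim0
    have h2 : n * (n - 1).factorial = n.factorial := Nat.mul_factorial_pred hn0
    simp only [pow_zero, Nat.factorial_zero, mul_one, one_mul, zero_add, nsmul_eq_mul]
    rw [h2]
  | succ k ih =>
    intro a ha hc
    have hcn : k + 2 ≤ n := by
      have := Finset.card_le_univ (univ.filter fun i => a i ≠ 0)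
      rw [hc, Fintype.card_fin] at this
      exact this
    obtain ⟨i, hi⟩ : ∃ i, a i ≠ 0 := by
      have : (univ.filter fun i => a i ≠ 0).Nonempty := by
        rw [← Finset.card_pos, hc]; omega
      obtain ⟨i, hi⟩ := this
      exact ⟨i, (Finset.mem_filter.1 hi).2⟩
    have hmi : i ∈ univ.filter fun i => a i ≠ 0 := by simpa using hi
    obtain ⟨i', hi', hne⟩ : ∃ i', a i' ≠ 0 ∧ i' ≠ i := by
      have : ((univ.filter fun i => a i ≠ 0).erase i).Nonempty := by
        rw [← Finset.card_pos, Finset.card_erase_of_mem hmi, hc]; omega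
      obtain ⟨i', hi'⟩ := this
      rw [Finset.mem_erase] at hi'
      exact ⟨i', (Finset.mem_filter.1 hi'.2).2, hi'.1⟩
    have hain : a i < n := by
      have h1 : a i + a i' ≤ ∑ j, a j := by
        rw [← Finset.add_sum_erase _ _ (mem_univ i)]
        have : a i' ≤ ∑ j ∈ univ.erase i, a j :=
          Finset.single_le_sum (f := a) (fun _ _ => Nat.zero_le _) (by simpa using hne)
        omega
      omega
    have hrec := ps_rec y a i (hy _ (Nat.pos_of_ne_zero hi) hain)
    rw [← Finset.sum_filter_add_sum_filter_not (univ.erase i) (fun l => a l = 0)] at hrec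
    have h1 : ∀ l ∈ (univ.erase i).filter (fun l => a l = 0),
        PS y (Function.update (Function.update a i 0) l (a l + a i)) = PS y a := by
      intro l hl
      rw [Finset.mem_filter, Finset.mem_erase] at hl
      rw [← ps_perm y a (Equiv.swap i l)]
      congr 1
      funext j
      simp only [Function.comp]
      by_cases hjl : j = l
      · rw [hjl, Function.update_self, Equiv.swap_apply_right, hl.2, zero_add]
      · rw [Function.update_of_ne hjl]
        by_cases hji : j = i
        · rw [hji, Function.update_self, Equiv.swap_apply_left, hl.2]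
        · rw [Function.update_of_ne hji, Equiv.swap_apply_of_ne_of_ne hji hjl]
    have h2 : ∀ l ∈ (univ.erase i).filter (fun l => ¬ a l = 0),
        PS y (Function.update (Function.update a i 0) l (a l + a i)) =
          (-1) ^ k * ((n * k.factorial * (n - (k + 1)).factorial : ℕ) : K) := by
      intro l hl
      rw [Finset.mem_filter, Finset.mem_erase] at hl
      have hli : l ≠ i := hl.1.1
      apply ih
      · have e1 : ∑ j, Function.update (Function.update a i 0) l (a l + a i) j =
            (a l + a i) + ∑ j ∈ (univ.erase l).erase i, a j := by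
          rw [← Finset.add_sum_erase _ _ (mem_univ l), Function.update_self]
          congr 1
          rw [← Finset.add_sum_erase _ _ (show i ∈ univ.erase l by simpa using hli.symm)]
          rw [Function.update_of_ne hli.symm, Function.update_self, zero_add]
          refine Finset.sum_congr rfl fun j hj => ?_
          rw [Finset.mem_erase, Finset.mem_erase] at hj
          rw [Function.update_of_ne hj.2.1, Function.update_of_ne hj.1]
        have e2 : ∑ j, a j = a l + (a i + ∑ j ∈ (univ.erase l).erase i, a j) := by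
          rw [← Finset.add_sum_erase _ _ (mem_univ l),
            ← Finset.add_sum_erase _ _ (show i ∈ univ.erase l by simpa using hli.symm)]
        rw [e1]
        rw [e2] at ha
        omega
      · have e3 : (univ.filter fun j =>
            Function.update (Function.update a i 0) l (a l + a i) j ≠ 0) =
            (univ.filter fun j => a j ≠ 0).erase i := by
          ext j
          simp only [Finset.mem_filter, Finset.mem_erase, Finset.mem_univ, true_and]
          by_cases hjl : j = l
          · rw [hjl, Function.update_self]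
            constructor
            · intro _
              exact ⟨hli, hl.2⟩
            · intro _
              omega
          · rw [Function.update_of_ne hjl]
            by_cases hji : j = i
            · rw [hji, Function.update_self]
              simp
            · rw [Function.update_of_ne hji]
              simp [hji]
        rw [e3, Finset.card_erase_of_mem hmi, hc]
        rfl
    rw [Finset.sum_congr rfl h1, Finset.sum_congr rfl h2, Finset.sum_const, Finset.sum_const] at hrec
    have c2 : ((univ.erase i).filter (fun l => ¬ a l = 0)).card = k + 1 := by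
      have : (univ.erase i).filter (fun l => ¬ a l = 0) = (univ.filter fun l => a l ≠ 0).erase i := by
        ext j
        simp only [Finset.mem_filter, Finset.mem_erase, Finset.mem_univ, true_and, ne_eq, and_true]
      rw [this, Finset.card_erase_of_mem hmi, hc]
      rfl
    have c1 : ((univ.erase i).filter (fun l => a l = 0)).card = n - (k + 2) := by
      have := Finset.card_filter_add_card_filter_not (s := univ.erase i) (fun l => a l = 0)
      rw [c2, Finset.card_erase_of_mem (mem_univ i), Finset.card_univ, Fintype.card_fin] at this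
      omega
    rw [c1, c2, nsmul_eq_mul, nsmul_eq_mul] at hrec
    obtain ⟨r, rfl⟩ : ∃ r, n = k + 2 + r := ⟨n - (k + 2), by omega⟩
    have s1 : k + 2 + r - (k + 2) = r := by omega
    have s2 : k + 2 + r - (k + 1) = r + 1 := by omega
    have s3 : k + 2 + r - (k + 1 + 1) = r := by omega
    rw [s1, s2] at hrec
    rw [s3]
    have hr : ((r : K) + 1) ≠ 0 := by exact_mod_cast Nat.succ_ne_zero r
    apply mul_left_cancel₀ hr
    rw [Nat.factorial_succ] at hrec
    rw [Nat.factorial_succ k]
    push_cast at hrec ⊢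
    linear_combination hrec

/-- the rotation of the roots of unity -/
theorem ps_rot (ζ : K) (hζ : ζ ^ n = 1) (a : Fin n → ℕ) :
    ζ ^ (∑ i, a i) * PS (fun l : Fin n => ζ ^ (l : ℕ)) a = PS (fun l : Fin n => ζ ^ (l : ℕ)) a := by
  unfold PS
  rcases Nat.eq_zero_or_pos n with rfl | hn
  · simp
  · haveI : NeZero n := ⟨hn.ne'⟩
    conv_rhs => rw [← Equiv.sum_comp (Equiv.mulLeft (Equiv.addRight (1 : Fin n) : Perm (Fin n)))]
    rw [Finset.mul_sum]
    refine Finset.sum_congr rfl fun σ _ => ?_
    simp only [Equiv.coe_mulLeft, Perm.mul_apply, Equiv.coe_addRight]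
    rw [← Finset.prod_pow_eq_pow_sum, ← Finset.prod_mul_distrib]
    refine Finset.prod_congr rfl fun i _ => ?_
    rw [← mul_pow]
    congr 1
    rw [Fin.val_add, ← pow_succ']
    have h1 : ζ ^ ((((σ i : Fin n) : ℕ) + ((1 : Fin n) : ℕ)) % n) =
        ζ ^ (((σ i : Fin n) : ℕ) + ((1 : Fin n) : ℕ)) := by
      conv_rhs => rw [← Nat.mod_add_div (((σ i : Fin n) : ℕ) + ((1 : Fin n) : ℕ)) n, pow_add,
        pow_mul, hζ, one_pow, mul_one]
    rw [h1]
    rcases Nat.lt_or_ge 1 n with h | h
    · have : ((1 : Fin n) : ℕ) = 1 := by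
        rw [Fin.val_one']
        exact Nat.mod_eq_of_lt h
      rw [this]
    · have hn1 : n = 1 := by omega
      subst hn1
      rw [pow_one] at hζ
      rw [hζ]
      simp

theorem ps_zero {ζ : K} (hζ : IsPrimitiveRoot ζ n) (a : Fin n → ℕ) (ha : ¬ n ∣ ∑ i, a i) :
    PS (fun l : Fin n => ζ ^ (l : ℕ)) a = 0 := by
  have h1 := ps_rot ζ hζ.pow_eq_one a
  have h2 : ζ ^ (∑ i, a i) ≠ 1 := fun h => ha ((hζ.pow_eq_one_iff_dvd _).1 h)
  have h3 : (ζ ^ (∑ i, a i) - 1) * PS (fun l : Fin n => ζ ^ (l : ℕ)) a = 0 := by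
    rw [sub_mul, one_mul, h1, sub_self]
  rcases mul_eq_zero.1 h3 with h | h
  · exact absurd (sub_eq_zero.1 h) h2
  · exact h

theorem ps_ne_zero [CharZero K] {ζ : K} (hn : 0 < n) (hζ : IsPrimitiveRoot ζ n) (a : Fin n → ℕ)
    (ha : ∑ i, a i = n) : PS (fun l : Fin n => ζ ^ (l : ℕ)) a ≠ 0 := by
  have hy : ∀ e, 0 < e → e < n → ∑ l : Fin n, (ζ ^ (l : ℕ)) ^ e = 0 := by
    intro e he hen
    have h1 : ζ ^ e ≠ 1 := hζ.pow_ne_one_of_pos_of_lt he.ne' hen
    have h2 : (ζ ^ e - 1) * ∑ l : Fin n, (ζ ^ (l : ℕ)) ^ e = 0 := by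
      have h3 : ∑ l : Fin n, (ζ ^ (l : ℕ)) ^ e = ∑ l ∈ range n, (ζ ^ e) ^ l := by
        rw [Finset.sum_range]
        refine Finset.sum_congr rfl fun l _ => ?_
        rw [← pow_mul, ← pow_mul, mul_comm]
      rw [h3, mul_geom_sum, ← pow_mul, mul_comm, pow_mul, hζ.pow_eq_one, one_pow, sub_self]
    rcases mul_eq_zero.1 h2 with h | h
    · exact absurd (sub_eq_zero.1 h) h1
    · exact h
  have hn1 : ∀ l : Fin n, (ζ ^ (l : ℕ)) ^ n = 1 := by
    intro l
    rw [← pow_mul, mul_comm, pow_mul, hζ.pow_eq_one, one_pow]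
  obtain ⟨k, hk⟩ : ∃ k, (univ.filter fun i => a i ≠ 0).card = k + 1 := by
    apply Nat.exists_eq_succ_of_ne_zero
    intro h
    rw [Finset.card_eq_zero, Finset.filter_eq_empty_iff] at h
    have : ∑ i, a i = 0 := Finset.sum_eq_zero fun i hi => by simpa using h hi
    omega
  rw [ps_val _ hy hn1 k a ha hk]
  apply mul_ne_zero
  · exact pow_ne_zero _ (neg_ne_zero.2 one_ne_zero)
  · rw [Nat.cast_ne_zero]
    exact mul_ne_zero (mul_ne_zero hn.ne' k.factorial_ne_zero) (Nat.factorial_ne_zero _)

open Polynomial in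
/-- If `g_1, …, g_n` are nonzero polynomials whose degrees add up to `n`, one of them `X ^ b`,
`b ≥ 1`, the permanent of the matrix `(g_i (ζ ^ l))` is not zero. -/
theorem poly_ne_zero [CharZero K] {ζ : K} (hζ : IsPrimitiveRoot ζ n) (g : Fin n → K[X])
    (hg : ∀ i, g i ≠ 0) (hd : ∑ i, (g i).natDegree = n) (i₀ : Fin n) (b : ℕ) (hb : 0 < b)
    (hi₀ : g i₀ = X ^ b) :
    ∑ σ : Perm (Fin n), ∏ i, (g i).eval (ζ ^ ((σ i : Fin n) : ℕ)) ≠ 0 := by
  have hn : 0 < n := i₀.pos
  have h1 : ∀ σ : Perm (Fin n), ∏ i, (g i).eval (ζ ^ ((σ i : Fin n) : ℕ)) =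
      ∑ a ∈ Fintype.piFinset (fun i => range ((g i).natDegree + 1)),
        ∏ i, ((g i).coeff (a i) * (ζ ^ ((σ i : Fin n) : ℕ)) ^ a i) := by
    intro σ
    rw [← Finset.prod_univ_sum (fun i => range ((g i).natDegree + 1))
      (fun i e => (g i).coeff e * (ζ ^ ((σ i : Fin n) : ℕ)) ^ e)]
    refine Finset.prod_congr rfl fun i _ => ?_
    rw [Polynomial.eval_eq_sum_range]
  rw [Finset.sum_congr rfl fun σ _ => h1 σ, Finset.sum_comm]
  have h2 : ∀ a : Fin n → ℕ,
      ∑ σ : Perm (Fin n), ∏ i, ((g i).coeff (a i) * (ζ ^ ((σ i : Fin n) : ℕ)) ^ a i) =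
        (∏ i, (g i).coeff (a i)) * PS (fun l : Fin n => ζ ^ (l : ℕ)) a := by
    intro a
    unfold PS
    rw [Finset.mul_sum]
    refine Finset.sum_congr rfl fun σ _ => ?_
    rw [Finset.prod_mul_distrib]
  rw [Finset.sum_congr rfl fun a _ => h2 a]
  rw [Finset.sum_eq_single (fun i => (g i).natDegree)]
  · apply mul_ne_zero
    · apply Finset.prod_ne_zero_iff.2
      intro i _
      rw [Polynomial.coeff_natDegree]
      exact Polynomial.leadingCoeff_ne_zero.2 (hg i)
    · exact ps_ne_zero hn hζ _ hd
  · intro a ha hne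
    by_contra hc
    rw [mul_eq_zero, not_or] at hc
    obtain ⟨hc1, hc2⟩ := hc
    have hle : ∀ i, a i ≤ (g i).natDegree := by
      intro i
      have := (Fintype.mem_piFinset.1 ha) i
      rw [Finset.mem_range] at this
      omega
    have hai : a i₀ = b := by
      by_contra h
      apply hc1
      apply Finset.prod_eq_zero (mem_univ i₀)
      rw [hi₀, Polynomial.coeff_X_pow, if_neg h]
    have hdvd : n ∣ ∑ i, a i := by
      by_contra h
      exact hc2 (ps_zero hζ a h)
    have hpos : 0 < ∑ i, a i := by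
      have : a i₀ ≤ ∑ i, a i := Finset.single_le_sum (fun _ _ => Nat.zero_le _) (mem_univ i₀)
      omega
    have hle2 : ∑ i, a i ≤ n := (Finset.sum_le_sum fun i _ => hle i).trans hd.le
    have heq : ∑ i, a i = n := le_antisymm hle2 (Nat.le_of_dvd hpos hdvd)
    apply hne
    funext i
    have h3 : ∑ i, a i = ∑ i, (g i).natDegree := by rw [heq, hd]
    exact (Finset.sum_eq_sum_iff_of_le fun i _ => hle i).1 h3 i (mem_univ i)
  · intro h
    exfalso
    apply h
    rw [Fintype.mem_piFinset]
    intro i
    rw [Finset.mem_range]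
    omega

end Pool.Agent.HS38.PL
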