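import Pool.Agent.HS38.PL.Game
import Pool.Agent.HS38.PL.Roots

/-!
# The singular locus of the permanental hypersurface
-/

set_option autoImplicit false

namespace Pool.Agent.HS38.PL

open MvPolynomial Matrix

variable {K : Type} [Field K] {n : ℕ}

variable (K n) in
/-- the permanent of the generic matrix -/
noncomputable def gp : MvPolynomial (Fin n × Fin n) K := (mvPolynomialX (Fin n) (Fin n) K).permanent

variable (K n) in
/-- the ideal of the singular locus -/
noncomputable def jac : Ideal (MvPolynomial (Fin n × Fin n) K) :=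
  Ideal.span (Set.range fun x => pderiv x (gp K n))

theorem gp_eq : gp K n = ∑ σ : Equiv.Perm (Fin n), ∏ l, X (σ l, l) := rfl

theorem pderiv_prod_ne (σ : Equiv.Perm (Fin n)) (i j : Fin n) (s : Finset (Fin n)) (hj : j ∉ s) :
    pderiv (i, j) (∏ l ∈ s, (X (σ l, l) : MvPolynomial (Fin n × Fin n) K)) = 0 := by
  classical
  induction s using Finset.induction_on with
  | empty => simp
  | insert a s ha ih =>
    rw [Finset.mem_insert, not_or] at hj
    rw [Finset.prod_insert ha, pderiv_mul, ih hj.2, pderiv_X_of_ne]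
    · simp
    · intro h
      exact hj.1 (Prod.ext_iff.1 h).2.symm

theorem pderiv_gp (i j : Fin n) : pderiv (i, j) (gp K n) =
    ∑ σ : Equiv.Perm (Fin n), if σ j = i then ∏ l ∈ Finset.univ.erase j, X (σ l, l) else 0 := by
  rw [gp_eq, map_sum]
  refine Finset.sum_congr rfl fun σ _ => ?_
  rw [← Finset.mul_prod_erase _ _ (Finset.mem_univ j), pderiv_mul,
    pderiv_prod_ne σ i j _ (Finset.notMem_erase _ _), mul_zero, add_zero]
  split_ifs with h
  · rw [h, pderiv_X_self, one_mul]
  · rw [pderiv_X_of_ne, zero_mul]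
    intro h'
    exact h (Prod.ext_iff.1 h').1

/-- the permanent of the matrix with a replaced row -/
theorem sum_pderiv (u : Fin n → Fin n → K) (i : Fin n) (v : Fin n → K) :
    ∑ j, v j * aeval (fun x : Fin n × Fin n => u x.1 x.2) (pderiv (i, j) (gp K n)) =
      ∑ σ : Equiv.Perm (Fin n), ∏ l, Function.update u i v l (σ l) := by
  classical
  have h1 : ∀ j, v j * aeval (fun x : Fin n × Fin n => u x.1 x.2) (pderiv (i, j) (gp K n)) =
      ∑ σ : Equiv.Perm (Fin n), if σ j = i then
        v j * ∏ l ∈ Finset.univ.erase j, u (σ l) l else 0 := by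
    intro j
    rw [pderiv_gp, map_sum, Finset.mul_sum]
    refine Finset.sum_congr rfl fun σ _ => ?_
    split_ifs with h
    · rw [map_prod]
      congr 1
      refine Finset.prod_congr rfl fun l _ => ?_
      rw [aeval_X]
    · rw [map_zero, mul_zero]
  rw [Finset.sum_congr rfl fun j _ => h1 j, Finset.sum_comm]
  rw [← Equiv.sum_comp (Equiv.inv (Equiv.Perm (Fin n)))
    (fun σ : Equiv.Perm (Fin n) => ∏ l, Function.update u i v l (σ l))]
  refine Finset.sum_congr rfl fun σ _ => ?_
  have h2 : ∏ l, Function.update u i v l ((Equiv.inv (Equiv.Perm (Fin n)) σ) l) =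
      ∏ l, Function.update u i v (σ l) l := by
    rw [← Equiv.prod_comp σ]
    refine Finset.prod_congr rfl fun l _ => ?_
    simp
  rw [h2, Finset.sum_eq_single (σ⁻¹ i)]
  · rw [if_pos (by simp), ← Finset.mul_prod_erase _ _ (Finset.mem_univ (σ⁻¹ i))]
    congr 1
    · simp
    · refine Finset.prod_congr rfl fun l hl => ?_
      rw [Function.update_of_ne]
      intro h
      apply (Finset.mem_erase.1 hl).1
      rw [← h]
      simp
  · intro j _ hj
    rw [if_neg]
    intro h
    apply hj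
    rw [← h]
    simp
  · intro h
    exact absurd (Finset.mem_univ _) h

theorem jac_hom (ω : Fin n → ℕ) : WHom (fun x : Fin n × Fin n => ω x.1) (jac K n) := by
  apply WHom.span
  rintro _ ⟨x, rfl⟩
  have h1 : IsWeightedHomogeneous (fun x : Fin n × Fin n => ω x.1) (gp K n) (∑ i, ω i) := by
    rw [gp_eq]
    apply IsWeightedHomogeneous.sum
    intro σ _
    have h2 := IsWeightedHomogeneous.prod (R := K) (w := fun x : Fin n × Fin n => ω x.1)
      Finset.univ (fun l => X (σ l, l)) (fun l => ω (σ l))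
      (fun l _ => isWeightedHomogeneous_X K (fun x : Fin n × Fin n => ω x.1) (σ l, l))
    rw [Equiv.sum_comp σ ω] at h2
    exact h2
  have hle : ω x.1 ≤ ∑ i, ω i := Finset.single_le_sum (fun _ _ => Nat.zero_le _) (Finset.mem_univ _)
  exact ⟨∑ i, ω i - ω x.1, h1.pderiv (Nat.sub_add_cancel hle)⟩

/-- the Fourier coefficients as linear forms -/
noncomputable def dft (n : ℕ) (ζ : K) (e : ℕ) : MvPolynomial (Fin n) K :=
  ∑ l : Fin n, C ((ζ⁻¹) ^ (e * (l : ℕ))) * X l

theorem dft_mem (ζ : K) (e : ℕ) : dft n ζ e ∈ pt (0 : Fin n → K) := by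
  rw [mem_pt]
  simp [dft]

open Polynomial in
theorem exists_poly [CharZero K] {ζ : K} (hn : 0 < n) (hζ : IsPrimitiveRoot ζ n) (v : Fin n → K) :
    ∃ f : K[X], (∀ l : Fin n, f.eval (ζ ^ (l : ℕ)) = v l) ∧
      ∀ c : ℕ, (∀ e, c < e → e < n → dft n ζ e ∈ pt v) → f.natDegree ≤ c := by
  have hn0 : (n : K) ≠ 0 := by exact_mod_cast hn.ne'
  have hζ0 : ζ ≠ 0 := hζ.ne_zero hn.ne'
  refine ⟨∑ e ∈ Finset.range n, Polynomial.C ((n : K)⁻¹ * MvPolynomial.aeval v (dft n ζ e)) * Polynomial.X ^ e, ?_, ?_⟩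
  · intro l
    rw [Polynomial.eval_finsetSum]
    have h1 : ∀ e ∈ Finset.range n, (Polynomial.C ((n : K)⁻¹ * MvPolynomial.aeval v (dft n ζ e)) *
        Polynomial.X ^ e).eval (ζ ^ (l : ℕ)) =
        ∑ l' : Fin n, (n : K)⁻¹ * v l' * (ζ ^ (l : ℕ) * (ζ⁻¹) ^ (l' : ℕ)) ^ e := by
      intro e _
      rw [Polynomial.eval_mul, Polynomial.eval_C, Polynomial.eval_pow, Polynomial.eval_X]
      unfold dft
      rw [map_sum, Finset.mul_sum, Finset.sum_mul]
      refine Finset.sum_congr rfl fun l' _ => ?_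
      rw [map_mul, MvPolynomial.aeval_C, MvPolynomial.aeval_X, Algebra.algebraMap_self,
        RingHom.id_apply, mul_pow, ← pow_mul, ← pow_mul, mul_comm e]
      ring
    rw [Finset.sum_congr rfl h1, Finset.sum_comm, Finset.sum_eq_single l]
    · have h2 : ζ ^ (l : ℕ) * (ζ⁻¹) ^ (l : ℕ) = 1 := by
        rw [← mul_pow, mul_inv_cancel₀ hζ0, one_pow]
      simp only [h2, one_pow, mul_one, Finset.sum_const, Finset.card_range, nsmul_eq_mul]
      field_simp
    · intro l' _ hl'
      rw [← Finset.mul_sum]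
      have h3 : ζ ^ (l : ℕ) * (ζ⁻¹) ^ (l' : ℕ) ≠ 1 := by
        intro h
        have h4 : ζ ^ (l : ℕ) = ζ ^ (l' : ℕ) := by
          rw [inv_pow, mul_inv_eq_one₀ (pow_ne_zero _ hζ0)] at h
          exact h
        apply hl'
        exact (Fin.ext (hζ.pow_inj l.2 l'.2 h4)).symm
      have h5 : (ζ ^ (l : ℕ) * (ζ⁻¹) ^ (l' : ℕ)) ^ n = 1 := by
        rw [mul_pow, ← pow_mul, ← pow_mul, mul_comm _ n, mul_comm _ n, pow_mul, pow_mul,
          inv_pow, hζ.pow_eq_one]
        simp
      have h6 : (ζ ^ (l : ℕ) * (ζ⁻¹) ^ (l' : ℕ) - 1) *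
          ∑ e ∈ Finset.range n, (ζ ^ (l : ℕ) * (ζ⁻¹) ^ (l' : ℕ)) ^ e = 0 := by
        rw [mul_geom_sum, h5, sub_self]
      rcases mul_eq_zero.1 h6 with h | h
      · exact absurd (sub_eq_zero.1 h) h3
      · rw [h, mul_zero]
    · intro h
      exact absurd (Finset.mem_univ _) h
  · intro c hc
    rw [Polynomial.natDegree_le_iff_coeff_eq_zero]
    intro e he
    rw [Polynomial.finsetSum_coeff]
    apply Finset.sum_eq_zero
    intro e' he'
    rw [Polynomial.coeff_C_mul_X_pow]
    split_ifs with h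
    · have := hc e he (by rw [h]; exact Finset.mem_range.1 he')
      rw [mem_pt] at this
      rw [← h, this, mul_zero]
    · rfl

open Polynomial in
/-- one of the derivatives in a row is not zero at a matrix of small degree -/
theorem exists_pderiv_ne [CharZero K] {ζ : K} (hζ : IsPrimitiveRoot ζ n)
    (u : Fin n → Fin n → K) (f : Fin n → K[X]) (hf1 : ∀ i, ∀ l : Fin n, (f i).eval (ζ ^ (l : ℕ)) = u i l)
    (i₀ : Fin n) (hne : ∀ l, l ≠ i₀ → f l ≠ 0)
    (hsum : ∑ l ∈ Finset.univ.erase i₀, (f l).natDegree < n) :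
    ∃ j, MvPolynomial.aeval (fun x : Fin n × Fin n => u x.1 x.2) (pderiv (i₀, j) (gp K n)) ≠ 0 := by
  classical
  by_contra hcon
  push Not at hcon
  set b := n - ∑ l ∈ Finset.univ.erase i₀, (f l).natDegree with hb
  have hb0 : 0 < b := by omega
  have hmain := poly_ne_zero hζ (Function.update f i₀ (Polynomial.X ^ b)) (by
      intro i
      by_cases hi : i = i₀
      · subst hi
        rw [Function.update_self]
        exact pow_ne_zero _ Polynomial.X_ne_zero
      · rw [Function.update_of_ne hi]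
        exact hne i hi) (by
      rw [← Finset.add_sum_erase _ _ (Finset.mem_univ i₀), Function.update_self,
        Polynomial.natDegree_X_pow]
      have : ∑ l ∈ Finset.univ.erase i₀, (Function.update f i₀ (Polynomial.X ^ b) l).natDegree =
          ∑ l ∈ Finset.univ.erase i₀, (f l).natDegree := by
        refine Finset.sum_congr rfl fun l hl => ?_
        rw [Function.update_of_ne (Finset.mem_erase.1 hl).1]
      rw [this]
      omega) i₀ b hb0 (Function.update_self _ _ _)
  apply hmain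
  have h2 := sum_pderiv u i₀ (fun l : Fin n => (ζ ^ (l : ℕ)) ^ b)
  have h3 : ∑ j : Fin n, (ζ ^ (j : ℕ)) ^ b *
      MvPolynomial.aeval (fun x : Fin n × Fin n => u x.1 x.2) (pderiv (i₀, j) (gp K n)) = 0 := by
    apply Finset.sum_eq_zero
    intro j _
    rw [hcon j, mul_zero]
  rw [h3] at h2
  rw [h2]
  refine Finset.sum_congr rfl fun σ _ => ?_
  refine Finset.prod_congr rfl fun i _ => ?_
  by_cases hi : i = i₀
  · subst hi
    rw [Function.update_self, Function.update_self, Polynomial.eval_pow, Polynomial.eval_X]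
  · rw [Function.update_of_ne hi, Function.update_of_ne hi, hf1]

variable (K n) in
/-- the ideal of the derivatives in a row -/
noncomputable def rowJac (i : Fin n) : Ideal (MvPolynomial (Fin n × Fin n) K) :=
  Ideal.span (Set.range fun j => pderiv (i, j) (gp K n))

theorem pderiv_hom (ω : Fin n → ℕ) (x : Fin n × Fin n) :
    ∃ m, IsWeightedHomogeneous (fun x : Fin n × Fin n => ω x.1) (pderiv x (gp K n)) m := by
  have h1 : IsWeightedHomogeneous (fun x : Fin n × Fin n => ω x.1) (gp K n) (∑ i, ω i) := by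
    rw [gp_eq]
    apply IsWeightedHomogeneous.sum
    intro σ _
    have h2 := IsWeightedHomogeneous.prod (R := K) (w := fun x : Fin n × Fin n => ω x.1)
      Finset.univ (fun l => X (σ l, l)) (fun l => ω (σ l))
      (fun l _ => isWeightedHomogeneous_X K (fun x : Fin n × Fin n => ω x.1) (σ l, l))
    rw [Equiv.sum_comp σ ω] at h2
    exact h2
  have hle : ω x.1 ≤ ∑ i, ω i := Finset.single_le_sum (fun _ _ => Nat.zero_le _) (Finset.mem_univ _)
  exact ⟨∑ i, ω i - ω x.1, h1.pderiv (Nat.sub_add_cancel hle)⟩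

theorem rowJac_hom (i : Fin n) (ω : Fin n → ℕ) : WHom (fun x : Fin n × Fin n => ω x.1) (rowJac K n i) := by
  apply WHom.span
  rintro _ ⟨j, rfl⟩
  exact pderiv_hom ω (i, j)

/-- The derivatives in a row: the height is at least `n`. -/
theorem height_rowJac [IsAlgClosed K] [CharZero K] (i₀ : Fin n) :
    (n : ℕ∞) ≤ (rowJac K n i₀).height := by
  classical
  have hn : 0 < n := i₀.pos
  rw [Ideal.height_eq_inf_minimalPrimes]
  refine le_iInf₂ fun P hP => ?_
  by_contra hlt
  rw [not_le] at hlt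
  have hh : P.height ≤ ((n - 1 : ℕ) : ℕ∞) := by
    have h1 : P.height < ((n - 1 : ℕ) : ℕ∞) + 1 := by
      have h2 : ((n - 1 : ℕ) : ℕ∞) + 1 = n := by
        have h3 : ((n - 1 + 1 : ℕ) : ℕ∞) = n := by rw [Nat.sub_add_cancel hn]
        rw [← h3, Nat.cast_add, Nat.cast_one]
      rw [h2]
      exact hlt
    exact Order.le_of_lt_add_one h1
  have : NeZero (n : K) := ⟨by exact_mod_cast hn.ne'⟩
  obtain ⟨ζ, hζ⟩ := HasEnoughRootsOfUnity.exists_primitiveRoot K n
  obtain ⟨u, c, hc, hJ, hall⟩ := exists_matrix (rowJac_hom (K := K) i₀) hP (n - 1) hh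
    (dft n ζ) (dft_mem ζ)
  choose f hf1 hf2 using fun i => exists_poly hn hζ (u i)
  have hdeg : ∀ i, (f i).natDegree ≤ c i := fun i => hf2 i (c i) (hall i).1
  have hne : ∀ l, f l ≠ 0 := by
    intro l hl
    have h1 : c l ≤ ∑ i, c i := Finset.single_le_sum (fun _ _ => Nat.zero_le _) (Finset.mem_univ _)
    rcases (hall l).2 with h | h
    · apply h
      funext j
      rw [← hf1 l j, hl, Polynomial.eval_zero]
      rfl
    · omega
  have hsum : ∑ l ∈ Finset.univ.erase i₀, (f l).natDegree < n := by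
    have h1 : ∑ l ∈ Finset.univ.erase i₀, (f l).natDegree ≤ ∑ l ∈ Finset.univ.erase i₀, c l :=
      Finset.sum_le_sum fun l _ => hdeg l
    have h2 := Finset.sum_erase_add Finset.univ c (Finset.mem_univ i₀)
    omega
  obtain ⟨j, hj⟩ := exists_pderiv_ne hζ u f hf1 i₀ (fun l _ => hne l) hsum
  apply hj
  have h4 : pderiv (i₀, j) (gp K n) ∈ rowJac K n i₀ := Ideal.subset_span ⟨j, rfl⟩
  have h5 := hJ h4
  unfold mpt at h5
  rw [mem_pt] at h5
  exact h5

open Polynomial in
/-- The codimension of the singular locus. -/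
theorem height_jac [IsAlgClosed K] [CharZero K] (hn : 2 ≤ n) : ((n + 2 : ℕ) : ℕ∞) ≤ (jac K n).height := by
  classical
  rw [Ideal.height_eq_inf_minimalPrimes]
  refine le_iInf₂ fun P hP => ?_
  by_contra hlt
  rw [not_le] at hlt
  have hh : P.height ≤ ((n + 1 : ℕ) : ℕ∞) := by
    have h1 : ((n + 2 : ℕ) : ℕ∞) = ((n + 1 : ℕ) : ℕ∞) + 1 := by push_cast; ring
    rw [h1] at hlt
    exact Order.le_of_lt_add_one hlt
  have hn0 : 0 < n := by omega
  have : NeZero (n : K) := ⟨by exact_mod_cast hn0.ne'⟩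
  obtain ⟨ζ, hζ⟩ := HasEnoughRootsOfUnity.exists_primitiveRoot K n
  obtain ⟨u, c, hc, hJ, hall⟩ := exists_matrix (jac_hom (K := K) (n := n)) hP (n + 1) hh
    (dft n ζ) (dft_mem ζ)
  choose f hf1 hf2 using fun i => exists_poly hn0 hζ (u i)
  have hdeg : ∀ i, (f i).natDegree ≤ c i := fun i => hf2 i (c i) (hall i).1
  have : Nonempty (Fin n) := ⟨⟨0, hn0⟩⟩
  -- the row to be removed
  obtain ⟨i₀, -, hmax⟩ := Finset.exists_max_image Finset.univ c Finset.univ_nonempty
  have h2 := Finset.sum_erase_add Finset.univ c (Finset.mem_univ i₀)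
  have hsum' : ∑ l ∈ Finset.univ.erase i₀, c l < n := by
    by_cases h3 : 2 ≤ c i₀
    · omega
    · have h4 : ∑ l ∈ Finset.univ.erase i₀, c l ≤ (Finset.univ.erase i₀).card • 1 :=
        Finset.sum_le_card_nsmul _ _ _ (fun l _ => by
          have := hmax l (Finset.mem_univ l)
          omega)
      rw [Finset.card_erase_of_mem (Finset.mem_univ _), Finset.card_univ, Fintype.card_fin,
        smul_eq_mul] at h4
      omega
  have hne : ∀ l, l ≠ i₀ → f l ≠ 0 := by
    intro l hl hfl
    have h1 : c l ≤ ∑ i ∈ Finset.univ.erase i₀, c i :=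
      Finset.single_le_sum (fun _ _ => Nat.zero_le _) (by simpa using hl)
    rcases (hall l).2 with h | h
    · apply h
      funext j
      rw [← hf1 l j, hfl, Polynomial.eval_zero]
      rfl
    · omega
  have hsum : ∑ l ∈ Finset.univ.erase i₀, (f l).natDegree < n :=
    (Finset.sum_le_sum fun l _ => hdeg l).trans_lt hsum'
  obtain ⟨j, hj⟩ := exists_pderiv_ne hζ u f hf1 i₀ hne hsum
  apply hj
  have h4 : pderiv (i₀, j) (gp K n) ∈ jac K n := Ideal.subset_span ⟨(i₀, j), rfl⟩
  have h5 := hJ h4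
  unfold mpt at h5
  rw [mem_pt] at h5
  exact h5

end Pool.Agent.HS38.PL
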