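import Pool.Agent.HS38.PL.Main

/-!
# The ideals of the `r × r` subpermanents of the generic `p × q` matrix
-/

set_option autoImplicit false

namespace Pool.Agent.HS38.PL

open MvPolynomial Matrix

variable {K : Type} [Field K] {p q r : ℕ}

/-- a subset with small sum -/
theorem exists_small_subset {ι : Type*} [DecidableEq ι] (c : ι → ℕ) (s : Finset ι) (r : ℕ) (hr : r ≤ s.card) :
    ∃ R ⊆ s, R.card = r ∧ s.card * ∑ i ∈ R, c i ≤ r * ∑ i ∈ s, c i := by
  obtain ⟨d, hd⟩ := Nat.exists_eq_add_of_le hr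
  induction d generalizing s with
  | zero => exact ⟨s, Finset.Subset.refl _, by omega, by rw [hd, add_zero]⟩
  | succ d ih =>
    have hne : s.Nonempty := by
      rw [← Finset.card_pos]
      omega
    obtain ⟨i, hi, hmax⟩ := Finset.exists_max_image s c hne
    have hcard : (s.erase i).card = r + d := by
      rw [Finset.card_erase_of_mem hi]
      omega
    obtain ⟨R, hR, hRc, hsum⟩ := ih (s.erase i) (by omega) hcard
    refine ⟨R, hR.trans (Finset.erase_subset _ _), hRc, ?_⟩
    have h1 : ∑ l ∈ s.erase i, c l + c i = ∑ l ∈ s, c l := Finset.sum_erase_add _ _ hi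
    have h2 : ∑ l ∈ s.erase i, c l ≤ (r + d) * c i := by
      have := Finset.sum_le_card_nsmul (s.erase i) c (c i)
        (fun l hl => hmax l (Finset.mem_of_mem_erase hl))
      rwa [hcard, smul_eq_mul] at this
    rw [hcard] at hsum
    rw [hd]
    rcases Nat.eq_zero_or_pos (r + d) with h0 | h0
    · have hr0 : r = 0 := by omega
      subst hr0
      rw [Finset.card_eq_zero] at hRc
      subst hRc
      simp
    · -- (r+d) * (r+d+1) * ΣR ≤ (r+d+1) * r * Σ' ≤ (r+d) * r * Σ
      have h3 : (r + d) * ((r + (d + 1)) * ∑ l ∈ R, c l) ≤ (r + d) * (r * ∑ l ∈ s, c l) := by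
        calc (r + d) * ((r + (d + 1)) * ∑ l ∈ R, c l)
            = (r + d + 1) * ((r + d) * ∑ l ∈ R, c l) := by ring
          _ ≤ (r + d + 1) * (r * ∑ l ∈ s.erase i, c l) := Nat.mul_le_mul_left _ hsum
          _ = r * ((r + d) * ∑ l ∈ s.erase i, c l + ∑ l ∈ s.erase i, c l) := by ring
          _ ≤ r * ((r + d) * ∑ l ∈ s.erase i, c l + (r + d) * c i) :=
              Nat.mul_le_mul_left _ (Nat.add_le_add_left h2 _)
          _ = (r + d) * (r * (∑ l ∈ s.erase i, c l + c i)) := by ring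
          _ = (r + d) * (r * ∑ l ∈ s, c l) := by rw [h1]
      exact Nat.le_of_mul_le_mul_left h3 h0

/-- if all maximal subpermanents of some rows vanish, the permanent vanishes -/
theorem perm_eq_zero [CharZero K] {α β γ : Type} [Fintype α] [DecidableEq α] [Fintype β]
    [DecidableEq β] [Fintype γ] [DecidableEq γ] (W : α ⊕ β → γ → K)
    (h : ∀ s : α ↪ γ, ∑ τ : Equiv.Perm α, ∏ i, W (Sum.inl i) (s (τ i)) = 0) :
    ∑ σ : (α ⊕ β) ≃ γ, ∏ x, W x (σ x) = 0 := by
  have h1 : ∀ τ : Equiv.Perm α, ∑ σ : (α ⊕ β) ≃ γ, ∏ x, W x (σ x) =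
      ∑ σ : (α ⊕ β) ≃ γ, ∏ x, W x (((Equiv.sumCongr τ (Equiv.refl β)).trans σ) x) := by
    intro τ
    rw [← Equiv.sum_comp (Equiv.equivCongr (Equiv.sumCongr τ (Equiv.refl β)).symm (Equiv.refl γ))
      (fun σ : (α ⊕ β) ≃ γ => ∏ x, W x (σ x))]
    rfl
  have h2 : (Fintype.card (Equiv.Perm α) : K) * ∑ σ : (α ⊕ β) ≃ γ, ∏ x, W x (σ x) = 0 := by
    have h3 : (Fintype.card (Equiv.Perm α) : K) * ∑ σ : (α ⊕ β) ≃ γ, ∏ x, W x (σ x) =
        ∑ τ : Equiv.Perm α, ∑ σ : (α ⊕ β) ≃ γ, ∏ x, W x (((Equiv.sumCongr τ (Equiv.refl β)).trans σ) x) := by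
      rw [← Finset.sum_congr rfl fun τ _ => h1 τ, Finset.sum_const, Finset.card_univ, nsmul_eq_mul]
    rw [h3, Finset.sum_comm]
    apply Finset.sum_eq_zero
    intro σ _
    have h4 : ∀ τ : Equiv.Perm α, ∏ x, W x (((Equiv.sumCongr τ (Equiv.refl β)).trans σ) x) =
        (∏ i, W (Sum.inl i) (σ (Sum.inl (τ i)))) * ∏ j, W (Sum.inr j) (σ (Sum.inr j)) := by
      intro τ
      rw [Fintype.prod_sum_type]
      rfl
    rw [Finset.sum_congr rfl fun τ _ => h4 τ, ← Finset.sum_mul]
    have h5 : ∑ τ : Equiv.Perm α, ∏ i, W (Sum.inl i) (σ (Sum.inl (τ i))) = 0 :=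
      h ⟨fun i => σ (Sum.inl i), fun a b hab => Sum.inl_injective (σ.injective hab)⟩
    rw [h5, zero_mul]
  rcases mul_eq_zero.1 h2 with h3 | h3
  · exact absurd h3 (by exact_mod_cast Fintype.card_ne_zero)
  · exact h3

variable (K p q r) in
/-- the ideal of the subpermanents of size `r` -/
noncomputable def subp : Ideal (MvPolynomial (Fin p × Fin q) K) :=
  Ideal.span (Set.range fun s : (Fin r ↪ Fin p) × (Fin r ↪ Fin q) =>
    ((mvPolynomialX (Fin p) (Fin q) K).submatrix s.1 s.2).permanent)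

theorem subperm_eq (s : (Fin r ↪ Fin p) × (Fin r ↪ Fin q)) :
    ((mvPolynomialX (Fin p) (Fin q) K).submatrix s.1 s.2).permanent =
      ∑ τ : Equiv.Perm (Fin r), ∏ i, X (s.1 i, s.2 (τ i)) := by
  rw [← permanent_transpose]
  rfl

theorem subp_hom (ω : Fin p → ℕ) : WHom (fun x : Fin p × Fin q => ω x.1) (subp K p q r) := by
  apply WHom.span
  rintro _ ⟨s, rfl⟩
  refine ⟨∑ i, ω (s.1 i), ?_⟩
  simp only [subperm_eq]
  apply IsWeightedHomogeneous.sum
  intro τ _
  exact IsWeightedHomogeneous.prod (R := K) (w := fun x : Fin p × Fin q => ω x.1)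
      Finset.univ (fun l => X (s.1 l, s.2 (τ l))) (fun l => ω (s.1 l))
      (fun l _ => isWeightedHomogeneous_X K (fun x : Fin p × Fin q => ω x.1) _)

open Polynomial in
/-- The codimension of the varieties of subpermanents. -/
theorem height_subp [IsAlgClosed K] [CharZero K] (hr : 0 < r) (hrp : r ≤ p) (hrq : r < q) :
    ((p * q : ℕ) : ℕ∞) ≤ r * (subp K p q r).height := by
  classical
  by_contra hlt
  rw [not_le] at hlt
  obtain ⟨h, hh⟩ : ∃ h : ℕ, (subp K p q r).height = h := by
    rcases eq_or_ne (subp K p q r).height ⊤ with h | h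
    · rw [h, ENat.mul_top (by exact_mod_cast hr.ne')] at hlt
      exact absurd hlt (by simp)
    · exact ⟨_, (ENat.natCast_toNat h).symm⟩
  rw [hh] at hlt
  have hlt' : r * h < p * q := by exact_mod_cast hlt
  obtain ⟨P, hP, hPh⟩ : ∃ P ∈ (subp K p q r).minimalPrimes, P.height ≤ (h : ℕ∞) := by
    by_contra hcon
    push Not at hcon
    have h1 : ((h + 1 : ℕ) : ℕ∞) ≤ (subp K p q r).height := by
      rw [Ideal.height_eq_inf_minimalPrimes]
      refine le_iInf₂ fun P hP => ?_
      rw [Nat.cast_add, Nat.cast_one]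
      exact Order.add_one_le_of_lt (hcon P hP)
    rw [hh] at h1
    have : h + 1 ≤ h := by exact_mod_cast h1
    omega
  have hq0 : 0 < q := by omega
  have : NeZero (q : K) := ⟨by exact_mod_cast hq0.ne'⟩
  obtain ⟨ζ, hζ⟩ := HasEnoughRootsOfUnity.exists_primitiveRoot K q
  obtain ⟨u, c, hc, hJ, hall⟩ := exists_matrix (subp_hom (K := K) (p := p) (q := q) (r := r)) hP h hPh
    (dft q ζ) (dft_mem ζ)
  choose f hf1 hf2 using fun i => exists_poly hq0 hζ (u i)
  have hdeg : ∀ i, (f i).natDegree ≤ c i := fun i => hf2 i (c i) (hall i).1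
  obtain ⟨R, -, hRc, hRs⟩ := exists_small_subset c Finset.univ r (by simpa using hrp)
  rw [Finset.card_univ, Fintype.card_fin] at hRs
  have hRq : ∑ i ∈ R, c i < q := by
    have h1 : r * ∑ i, c i ≤ r * h := Nat.mul_le_mul_left _ hc
    have h2 : p * ∑ i ∈ R, c i < p * q := by omega
    exact Nat.lt_of_mul_lt_mul_left h2
  have hne : ∀ i ∈ R, f i ≠ 0 := by
    intro i hi hfi
    have h1 : c i ≤ ∑ l ∈ R, c l := Finset.single_le_sum (fun _ _ => Nat.zero_le _) hi
    rcases (hall i).2 with h2 | h2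
    · apply h2
      funext j
      rw [← hf1 i j, hfi, Polynomial.eval_zero]
      rfl
    · omega
  set b := q - ∑ i ∈ R, (f i).natDegree with hb
  have hsd : ∑ i ∈ R, (f i).natDegree < q := (Finset.sum_le_sum fun i _ => hdeg i).trans_lt hRq
  have hb0 : 0 < b := by omega
  obtain ⟨m, hm⟩ := Nat.exists_eq_add_of_le hrq.le
  have hm0 : 0 < m := by omega
  let eR : Fin r ≃ R := (R.equivFinOfCardEq hRc).symm
  -- the rows of the square matrix
  let G : Fin r ⊕ Fin m → K[X] := Sum.elim (fun i => f (eR i))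
    (fun j => if j = ⟨0, hm0⟩ then Polynomial.X ^ b else 1)
  let eq : Fin r ⊕ Fin m ≃ Fin q := finSumFinEquiv.trans (finCongr hm.symm)
  have hG0 : ∀ x, G x ≠ 0 := by
    rintro (i | j)
    · exact hne _ (eR i).2
    · simp only [G, Sum.elim_inr]
      split_ifs
      · exact pow_ne_zero _ Polynomial.X_ne_zero
      · exact one_ne_zero
  have hGd : ∑ x, (G x).natDegree = q := by
    rw [Fintype.sum_sum_type]
    simp only [G, Sum.elim_inl, Sum.elim_inr]
    have h1 : ∑ i : Fin r, (f (eR i)).natDegree = ∑ i ∈ R, (f i).natDegree := by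
      rw [Equiv.sum_comp eR (fun x : R => (f x).natDegree), Finset.sum_coe_sort R (fun i => (f i).natDegree)]
    have h2 : ∑ j : Fin m, (if j = ⟨0, hm0⟩ then Polynomial.X ^ b else (1 : K[X])).natDegree = b := by
      rw [Finset.sum_eq_single ⟨0, hm0⟩]
      · rw [if_pos rfl, Polynomial.natDegree_X_pow]
      · intro j _ hj
        rw [if_neg hj, Polynomial.natDegree_one]
      · intro h
        exact absurd (Finset.mem_univ _) h
    rw [h1, h2]
    omega
  have hmain := poly_ne_zero hζ (fun k => G (eq.symm k)) (fun k => hG0 _) (by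
    rw [Equiv.sum_comp eq.symm (fun x => (G x).natDegree)]
    exact hGd) (eq (Sum.inr ⟨0, hm0⟩)) b hb0 (by
      rw [Equiv.symm_apply_apply]
      simp only [G, Sum.elim_inr, if_true])
  apply hmain
  have h3 := perm_eq_zero (γ := Fin q) (fun x (l : Fin q) => (G x).eval (ζ ^ (l : ℕ))) (by
    intro s
    have h4 : ((mvPolynomialX (Fin p) (Fin q) K).submatrix
        (⟨fun i : Fin r => ((eR i : R) : Fin p), fun a b hab => eR.injective (Subtype.ext hab)⟩ : Fin r ↪ Fin p)
        s).permanent ∈ subp K p q r := Ideal.subset_span ⟨(⟨fun i : Fin r => ((eR i : R) : Fin p),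
          fun a b hab => eR.injective (Subtype.ext hab)⟩, s), rfl⟩
    have h5 := hJ h4
    unfold mpt at h5
    rw [mem_pt] at h5
    have h6 := subperm_eq (K := K) ((⟨fun i : Fin r => ((eR i : R) : Fin p),
          fun a b hab => eR.injective (Subtype.ext hab)⟩ : Fin r ↪ Fin p), s)
    simp only at h6
    rw [h6, map_sum] at h5
    rw [← h5]
    refine Finset.sum_congr rfl fun τ _ => ?_
    rw [map_prod]
    refine Finset.prod_congr rfl fun i _ => ?_
    rw [MvPolynomial.aeval_X]
    exact hf1 _ _)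
  rw [← h3, ← Equiv.sum_comp (Equiv.equivCongr eq (Equiv.refl (Fin q)))]
  refine Finset.sum_congr rfl fun σ _ => ?_
  rw [← Equiv.prod_comp eq]
  refine Finset.prod_congr rfl fun x _ => ?_
  rw [Equiv.symm_apply_apply]
  simp [Equiv.equivCongr]

/-- The upper bound for the maximal subpermanents. -/
theorem height_subp_le (hp : 0 < p) : (subp K p q p).height ≤ q := by
  classical
  have hle : subp K p q p ≤ Ideal.span (Set.range fun j : Fin q => (X (⟨0, hp⟩, j) : MvPolynomial (Fin p × Fin q) K)) := by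
    unfold subp
    rw [Ideal.span_le]
    rintro _ ⟨s, rfl⟩
    rw [SetLike.mem_coe]
    simp only [subperm_eq]
    refine Ideal.sum_mem _ fun τ _ => ?_
    have hsurj : Function.Surjective s.1 := Finite.injective_iff_surjective.1 s.1.injective
    obtain ⟨i, hi⟩ := hsurj ⟨0, hp⟩
    rw [← Finset.mul_prod_erase _ _ (Finset.mem_univ i)]
    apply Ideal.mul_mem_right
    rw [hi]
    exact Ideal.subset_span ⟨_, rfl⟩
  have hne : Ideal.span (Set.range fun j : Fin q => (X (⟨0, hp⟩, j) : MvPolynomial (Fin p × Fin q) K)) ≠ ⊤ := by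
    intro h
    have h2 : Ideal.span (Set.range fun j : Fin q => (X (⟨0, hp⟩, j) : MvPolynomial (Fin p × Fin q) K)) ≤
        RingHom.ker (constantCoeff : MvPolynomial (Fin p × Fin q) K →+* K) := by
      rw [Ideal.span_le]
      rintro _ ⟨j, rfl⟩
      rw [SetLike.mem_coe, RingHom.mem_ker, constantCoeff_X]
    rw [h, top_le_iff] at h2
    have h3 := (Ideal.eq_top_iff_one _).1 h2
    rw [RingHom.mem_ker, map_one] at h3
    exact one_ne_zero h3
  have h3 := Ideal.height_le_spanFinrank _ hne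
  refine (Ideal.height_mono hle).trans (h3.trans (Nat.cast_le.2 ?_))
  refine (Submodule.spanFinrank_span_le_ncard_of_finite (Set.finite_range _)).trans ?_
  have h5 := Set.ncard_image_le (f := fun j : Fin q => (X (⟨0, hp⟩, j) : MvPolynomial (Fin p × Fin q) K))
    (Set.finite_univ (α := Fin q))
  rw [Set.image_univ, Set.ncard_univ, Nat.card_eq_fintype_card, Fintype.card_fin] at h5
  exact h5

end Pool.Agent.HS38.PL
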